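import Pool.Agent.helper18.Hz.ModS

/-! # MODULE C1: braid relations from one abstract lemma -/

namespace Pool.Agent.helper18.Hz
open Pool.Agent.helper35.Hz

/-- Two automorphisms `x ↦ c^[α x] x c^{-[β x]}` (on generators) with `S d = c d`, `T c = c d⁻¹` satisfy the
braid relation. -/
theorem braid_abstract {g : ℕ} {S T : MulAut (FG g)} {c d : FG g} {α β α' β' : ℕ → Bool → Bool}
    (hSa : ∀ l < g, S (ga g l) = (if α l true then c else 1) * ga g l * (if β l true then c⁻¹ else 1))
    (hSb : ∀ l < g, S (gb g l) = (if α l false then c else 1) * gb g l * (if β l false then c⁻¹ else 1))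
    (hTa : ∀ l < g, T (ga g l) = (if α' l true then d else 1) * ga g l * (if β' l true then d⁻¹ else 1))
    (hTb : ∀ l < g, T (gb g l) = (if α' l false then d else 1) * gb g l * (if β' l false then d⁻¹ else 1))
    (hSc : S c = c) (hTd : T d = d) (hSd : S d = c * d) (hTc : T c = c * d⁻¹) : Braid S T := by
  unfold Braid
  have key : ∀ (x : FG g) (a b a' b' : Bool),
      S x = (if a then c else 1) * x * (if b then c⁻¹ else 1) →
      T x = (if a' then d else 1) * x * (if b' then d⁻¹ else 1) →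
      (S * T * S) x = (T * S * T) x := by
    intro x a b a' b' hS hT
    simp only [MulAut.mul_apply]
    cases a <;> cases b <;> cases a' <;> cases b' <;>
      simp only [if_true, if_false, Bool.false_eq_true, one_mul, mul_one] at hS hT <;>
      simp [hS, hT, hSc, hTd, hSd, hTc, mul_assoc]
  refine fg_aut_ext (fun l hl => ?_) (fun l hl => ?_)
  · exact key _ _ _ _ _ (hSa l hl) (hTa l hl)
  · exact key _ _ _ _ _ (hSb l hl) (hTb l hl)

theorem braid_symm {G : Type*} [Group G] {x y : G} (h : Braid x y) : Braid y x := Eq.symm h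

/-! ### the twists in the form of the abstract lemma -/

/-- no side -/
def noB : ℕ → Bool → Bool := fun _ _ => false

section
variable {g : ℕ}

theorem A_ga (i : ℕ) : ∀ l < g, tauA g i (ga g l) =
    (if noB l true then ga g i else 1) * ga g l *
      (if bA i l true then (ga g i)⁻¹ else 1) := fun _ hl => tw_ga hl

theorem A_gb (i : ℕ) : ∀ l < g, tauA g i (gb g l) =
    (if noB l false then ga g i else 1) * gb g l *
      (if bA i l false then (ga g i)⁻¹ else 1) := fun _ hl => tw_gb hl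

theorem B_ga (i : ℕ) : ∀ l < g, tauB g i (ga g l) =
    (if noB l true then (gb g i)⁻¹ else 1) * ga g l *
      (if bB i l true then ((gb g i)⁻¹)⁻¹ else 1) := fun _ hl => tw_ga hl

theorem B_gb (i : ℕ) : ∀ l < g, tauB g i (gb g l) =
    (if noB l false then (gb g i)⁻¹ else 1) * gb g l *
      (if bB i l false then ((gb g i)⁻¹)⁻¹ else 1) := fun _ hl => tw_gb hl

theorem M_ga {i j : ℕ} (h : i < j) (hj : j < g) : ∀ l < g, tauM g i j (ga g l) =
    (if αM i j l true then mu g i j else 1) * ga g l * (if βM i j l true then (mu g i j)⁻¹ else 1) := by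
  intro l hl
  rw [tauM, dif_pos ⟨h, hj⟩]
  exact tw_ga hl

theorem M_gb {i j : ℕ} (h : i < j) (hj : j < g) : ∀ l < g, tauM g i j (gb g l) =
    (if αM i j l false then mu g i j else 1) * gb g l * (if βM i j l false then (mu g i j)⁻¹ else 1) := by
  intro l hl
  rw [tauM, dif_pos ⟨h, hj⟩]
  exact tw_gb hl

theorem N_ga {i j : ℕ} (h : i < j) (hj : j < g) : ∀ l < g, tauN g i j (ga g l) =
    (if αN i j l true then nu g i j else 1) * ga g l * (if βN i j l true then (nu g i j)⁻¹ else 1) := by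
  intro l hl
  rw [tauN, dif_pos ⟨h, hj⟩]
  exact tw_ga hl

theorem N_gb {i j : ℕ} (h : i < j) (hj : j < g) : ∀ l < g, tauN g i j (gb g l) =
    (if αN i j l false then nu g i j else 1) * gb g l * (if βN i j l false then (nu g i j)⁻¹ else 1) := by
  intro l hl
  rw [tauN, dif_pos ⟨h, hj⟩]
  exact tw_gb hl

theorem M_mu {i j : ℕ} (h : i < j) (hj : j < g) : tauM g i j (mu g i j) = mu g i j := by
  rw [tauM, dif_pos ⟨h, hj⟩, tw_apply]
  exact tauM_aux ⟨h, hj⟩ _ (Or.inl rfl)

theorem N_nu {i j : ℕ} (h : i < j) (hj : j < g) : tauN g i j (nu g i j) = nu g i j := by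
  rw [tauN, dif_pos ⟨h, hj⟩, tw_apply]
  exact tauN_aux ⟨h, hj⟩ _ (Or.inl rfl)

/-! ### values on `z` -/

theorem map_zr_fix {f : MulAut (FG g)} {a b : ℕ}
    (h : ∀ l, a ≤ l → l < b → f (ga g l) = ga g l ∧ f (gb g l) = gb g l) : f (zr g a b) = zr g a b := by
  have := hom_zr_fix (f := f.toMonoidHom) (i := a) (j := b) (fun l h1 h2 => gz_fix (h l h1 h2).1 (h l h1 h2).2)
  exact this

theorem map_zr_conj {f : MulAut (FG g)} {c : FG g} {a b : ℕ}
    (h : ∀ l, a ≤ l → l < b → f (ga g l) = c * ga g l * c⁻¹ ∧ f (gb g l) = c * gb g l * c⁻¹) :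
    f (zr g a b) = c * zr g a b * c⁻¹ := by
  have := hom_zr_conj (f := f.toMonoidHom) (c := c) (i := a) (j := b)
    (fun l h1 h2 => gz_conj (h l h1 h2).1 (h l h1 h2).2)
  exact this

theorem A_zr {i a b : ℕ} (hb : b ≤ g) (h : i < a ∨ b ≤ i) : tauA g i (zr g a b) = zr g a b :=
  map_zr_fix fun l h1 h2 => ⟨tauA_ga' (by omega), tauA_gb_ne' (by omega) (by omega)⟩

theorem B_zr {i a b : ℕ} (hb : b ≤ g) (h : i < a ∨ b ≤ i) : tauB g i (zr g a b) = zr g a b :=
  map_zr_fix fun l h1 h2 => ⟨tauB_ga_ne' (by omega) (by omega), tauB_gb' (by omega)⟩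

theorem M_zr_out {i j a b : ℕ} (hij : i < j) (hj : j < g) (hb : b ≤ g) (h : b ≤ i ∨ j < a) :
    tauM g i j (zr g a b) = zr g a b := by
  refine map_zr_fix fun l h1 h2 => ⟨?_, ?_⟩
  · rw [M_ga hij hj l (by omega), if_neg, if_neg]
    · simp
    · simp only [βM, decide_eq_true_eq]; omega
    · simp only [αM, decide_eq_true_eq]; omega
  · rw [M_gb hij hj l (by omega), if_neg, if_neg]
    · simp
    · simp only [βM, decide_eq_true_eq]; omega
    · simp only [αM, decide_eq_true_eq]; omega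

theorem M_zr_in {i j a b : ℕ} (hij : i < j) (hj : j < g) (ha : i < a) (hb : b ≤ j) :
    tauM g i j (zr g a b) = mu g i j * zr g a b * (mu g i j)⁻¹ := by
  refine map_zr_conj fun l h1 h2 => ⟨?_, ?_⟩
  · rw [M_ga hij hj l (by omega), if_pos, if_pos]
    · simp only [βM, decide_eq_true_eq]; omega
    · simp only [αM, decide_eq_true_eq]; omega
  · rw [M_gb hij hj l (by omega), if_pos, if_pos]
    · simp only [βM, decide_eq_true_eq]; omega
    · simp only [αM, decide_eq_true_eq]; omega

theorem N_zr_out {i j a b : ℕ} (hij : i < j) (hj : j < g) (hb : b ≤ g) (h : b ≤ i ∨ j < a) :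
    tauN g i j (zr g a b) = zr g a b := by
  refine map_zr_fix fun l h1 h2 => ⟨?_, ?_⟩
  · rw [N_ga hij hj l (by omega), if_neg, if_neg]
    · simp
    · simp only [βN, decide_eq_true_eq]; omega
    · simp only [αN, decide_eq_true_eq]; omega
  · rw [N_gb hij hj l (by omega), if_neg, if_neg]
    · simp
    · simp only [βN, decide_eq_true_eq]; omega
    · simp only [αN, decide_eq_true_eq]; omega

theorem N_zr_in {i j a b : ℕ} (hij : i < j) (hj : j < g) (ha : i < a) (hb : b ≤ j) :
    tauN g i j (zr g a b) = nu g i j * zr g a b * (nu g i j)⁻¹ := by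
  refine map_zr_conj fun l h1 h2 => ⟨?_, ?_⟩
  · rw [N_ga hij hj l (by omega), if_pos, if_pos]
    · simp only [βN, decide_eq_true_eq]; omega
    · simp only [αN, decide_eq_true_eq]; omega
  · rw [N_gb hij hj l (by omega), if_pos, if_pos]
    · simp only [βN, decide_eq_true_eq]; omega
    · simp only [αN, decide_eq_true_eq]; omega

/-! ### values on the generators at the ends -/

theorem M_gb_i {i j : ℕ} (h : i < j) (hj : j < g) : tauM g i j (gb g i) = mu g i j * gb g i := by
  rw [M_gb h hj i (by omega)]; simp [αM, βM]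

theorem M_ga_i {i j : ℕ} (h : i < j) (hj : j < g) : tauM g i j (ga g i) = ga g i := by
  rw [M_ga h hj i (by omega)]; simp [αM, βM, h.ne]

theorem M_ga_j {i j : ℕ} (h : i < j) (hj : j < g) : tauM g i j (ga g j) = mu g i j * ga g j * (mu g i j)⁻¹ := by
  rw [M_ga h hj j hj]; simp [αM, βM, h]

theorem M_gb_j {i j : ℕ} (h : i < j) (hj : j < g) : tauM g i j (gb g j) = gb g j * (mu g i j)⁻¹ := by
  rw [M_gb h hj j hj]; simp [αM, βM, h, h.ne']

theorem N_gb_i {i j : ℕ} (h : i < j) (hj : j < g) : tauN g i j (gb g i) = nu g i j * gb g i * (nu g i j)⁻¹ := by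
  rw [N_gb h hj i (by omega)]; simp [αN, βN, h]

theorem N_ga_i {i j : ℕ} (h : i < j) (hj : j < g) : tauN g i j (ga g i) = ga g i * (nu g i j)⁻¹ := by
  rw [N_ga h hj i (by omega)]; simp [αN, βN, h, h.ne]

theorem N_ga_j {i j : ℕ} (h : i < j) (hj : j < g) : tauN g i j (ga g j) = nu g i j * ga g j := by
  rw [N_ga h hj j hj]; simp [αN, βN]

theorem N_gb_j {i j : ℕ} (h : i < j) (hj : j < g) : tauN g i j (gb g j) = gb g j := by
  rw [N_gb h hj j hj]; simp [αN, βN, h.ne']

theorem M_ga_out {i j l : ℕ} (h : i < j) (hj : j < g) (hl : l < g) (h' : l < i ∨ j < l) :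
    tauM g i j (ga g l) = ga g l := by
  rw [M_ga h hj l hl, if_neg, if_neg]
  · simp
  · simp only [βM, decide_eq_true_eq]; omega
  · simp only [αM, decide_eq_true_eq]; omega

theorem M_gb_out {i j l : ℕ} (h : i < j) (hj : j < g) (hl : l < g) (h' : l < i ∨ j < l) :
    tauM g i j (gb g l) = gb g l := by
  rw [M_gb h hj l hl, if_neg, if_neg]
  · simp
  · simp only [βM, decide_eq_true_eq]; omega
  · simp only [αM, decide_eq_true_eq]; omega

theorem N_ga_out {i j l : ℕ} (h : i < j) (hj : j < g) (hl : l < g) (h' : l < i ∨ j < l) :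
    tauN g i j (ga g l) = ga g l := by
  rw [N_ga h hj l hl, if_neg, if_neg]
  · simp
  · simp only [βN, decide_eq_true_eq]; omega
  · simp only [αN, decide_eq_true_eq]; omega

theorem N_gb_out {i j l : ℕ} (h : i < j) (hj : j < g) (hl : l < g) (h' : l < i ∨ j < l) :
    tauN g i j (gb g l) = gb g l := by
  rw [N_gb h hj l hl, if_neg, if_neg]
  · simp
  · simp only [βN, decide_eq_true_eq]; omega
  · simp only [αN, decide_eq_true_eq]; omega

theorem N_ga_in {i j l : ℕ} (h : i < j) (hj : j < g) (h1 : i < l) (h2 : l < j) :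
    tauN g i j (ga g l) = nu g i j * ga g l * (nu g i j)⁻¹ := by
  rw [N_ga h hj l (by omega), if_pos, if_pos]
  · simp only [βN, decide_eq_true_eq]; omega
  · simp only [αN, decide_eq_true_eq]; omega

theorem N_gb_in {i j l : ℕ} (h : i < j) (hj : j < g) (h1 : i < l) (h2 : l < j) :
    tauN g i j (gb g l) = nu g i j * gb g l * (nu g i j)⁻¹ := by
  rw [N_gb h hj l (by omega), if_pos, if_pos]
  · simp only [βN, decide_eq_true_eq]; omega
  · simp only [αN, decide_eq_true_eq]; omega

/-! ### the braid relations -/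

theorem braid_A_B {i : ℕ} (hi : i < g) : Braid (tauA g i) (tauB g i) := by
  refine braid_abstract (A_ga i) (A_gb i) (B_ga i) (B_gb i) (tauA_ga' hi) ?_ ?_ ?_
  · rw [map_inv, tauB_gb' hi]
  · rw [map_inv, tauA_gb_self' hi]; simp
  · rw [tauB_ga_self' hi]; simp

theorem braid_B_M1 {i j : ℕ} (h : i < j) (hj : j < g) : Braid (tauB g i) (tauM g i j) := by
  have hi : i < g := by omega
  refine braid_abstract (B_ga i) (B_gb i) (M_ga h hj) (M_gb h hj) ?_ (M_mu h hj) ?_ ?_
  · rw [map_inv, tauB_gb' hi]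
  · simp only [mu, map_mul, map_inv]
    rw [tauB_gb' hi, tauB_ga_self' hi, tauB_ga_ne' hj h.ne', B_zr hj.le (by omega)]
    simp [mul_assoc]
  · rw [map_inv, M_gb_i h hj]; simp

theorem braid_B_M2 {i j : ℕ} (h : i < j) (hj : j < g) : Braid (tauB g j) (tauM g i j) := by
  have hi : i < g := by omega
  refine braid_symm (braid_abstract (M_ga h hj) (M_gb h hj) (B_ga j) (B_gb j) (M_mu h hj) ?_ ?_ ?_)
  · rw [map_inv, tauB_gb' hj]
  · rw [map_inv, M_gb_j h hj]; simp
  · simp only [mu, map_mul, map_inv]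
    rw [tauB_gb' hi, tauB_ga_ne' hi h.ne, tauB_ga_self' hj, B_zr hj.le (by omega)]
    simp [mul_assoc]

theorem braid_A_N1 {i j : ℕ} (h : i < j) (hj : j < g) : Braid (tauA g i) (tauN g i j) := by
  have hi : i < g := by omega
  refine braid_abstract (A_ga i) (A_gb i) (N_ga h hj) (N_gb h hj) (tauA_ga' hi) (N_nu h hj) ?_ ?_
  · simp only [nu, map_mul, map_inv]
    rw [tauA_gb_self' hi, tauA_gb_ne' hj h.ne', tauA_ga' hj, A_zr hj.le (by omega)]
    simp [mul_assoc]
  · rw [N_ga_i h hj]

theorem braid_A_N2 {i j : ℕ} (h : i < j) (hj : j < g) : Braid (tauA g j) (tauN g i j) := by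
  have hi : i < g := by omega
  refine braid_symm (braid_abstract (N_ga h hj) (N_gb h hj) (A_ga j) (A_gb j) (N_nu h hj) (tauA_ga' hj) ?_ ?_)
  · rw [N_ga_j h hj]
  · simp only [nu, map_mul, map_inv]
    rw [tauA_gb_self' hj, tauA_gb_ne' hi h.ne, tauA_ga' hj, A_zr hj.le (by omega)]
    simp [mul_assoc]

theorem braid_M_N1 {l i j : ℕ} (h1 : l < i) (h : i < j) (hj : j < g) :
    Braid (tauM g l i) (tauN g i j) := by
  have hi : i < g := by omega
  have hl : l < g := by omega
  refine braid_abstract (M_ga h1 hi) (M_gb h1 hi) (N_ga h hj) (N_gb h hj) (M_mu h1 hi) (N_nu h hj) ?_ ?_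
  · simp only [nu, map_mul, map_inv]
    rw [M_gb_j h1 hi, M_zr_out h1 hi hj.le (by omega), M_ga_out h1 hi hj (by omega), M_gb_out h1 hi hj (by omega)]
    simp [mul_assoc]
  · simp only [mu, map_mul, map_inv]
    rw [N_gb_out h hj hl (by omega), N_ga_out h hj hl (by omega), N_zr_out h hj hi.le (by omega), N_ga_i h hj]
    simp [mul_assoc]

theorem braid_M_N2 {i l j : ℕ} (h1 : i < l) (h : l < j) (hj : j < g) :
    Braid (tauM g l j) (tauN g i j) := by
  have hij : i < j := by omega
  have hi : i < g := by omega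
  have hl : l < g := by omega
  have hν : nu g i j = (gb g i)⁻¹ * zr g (i + 1) l * gz g l * zr g (l + 1) j * ga g j * gb g j * (ga g j)⁻¹ := by
    rw [nu, zr_split g (by omega : i + 1 ≤ l) h.le, zr_succ_left g h]
    simp [mul_assoc]
  refine braid_symm (braid_abstract (N_ga hij hj) (N_gb hij hj) (M_ga h hj) (M_gb h hj) (N_nu hij hj)
    (M_mu h hj) ?_ ?_)
  · simp only [mu, map_mul, map_inv]
    rw [N_gb_in hij hj h1 h, N_ga_in hij hj h1 h, N_zr_in hij hj (by omega) le_rfl, N_ga_j hij hj]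
    simp [mul_assoc]
  · rw [hν]
    simp only [gz, map_mul, map_inv]
    rw [M_gb_out h hj hi (by omega), M_zr_out h hj hl.le (by omega), M_ga_i h hj, M_gb_i h hj,
      M_zr_in h hj (by omega) le_rfl, M_ga_j h hj, M_gb_j h hj]
    simp [mu, mul_assoc]

end

end Pool.Agent.helper18.Hz
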