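import Pool.Agent.helper18.Hz.Braid

/-! # MODULE C2: commutation relations from two abstract lemmas -/

namespace Pool.Agent.helper18.Hz
open Pool.Agent.helper35.Hz

theorem comm_abstract1 {g : ℕ} {S T : MulAut (FG g)} {c d : FG g} {α β α' β' : ℕ → Bool → Bool}
    (hSa : ∀ l < g, S (ga g l) = (if α l true then c else 1) * ga g l * (if β l true then c⁻¹ else 1))
    (hSb : ∀ l < g, S (gb g l) = (if α l false then c else 1) * gb g l * (if β l false then c⁻¹ else 1))
    (hTa : ∀ l < g, T (ga g l) = (if α' l true then d else 1) * ga g l * (if β' l true then d⁻¹ else 1))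
    (hTb : ∀ l < g, T (gb g l) = (if α' l false then d else 1) * gb g l * (if β' l false then d⁻¹ else 1))
    (hSd : S d = d) (hTc : T c = c) (hα : ∀ l s, ¬ (α l s = true ∧ α' l s = true))
    (hβ : ∀ l s, ¬ (β l s = true ∧ β' l s = true)) : Commute S T := by
  have key : ∀ (x : FG g) (a b a' b' : Bool), ¬ (a = true ∧ a' = true) → ¬ (b = true ∧ b' = true) →
      S x = (if a then c else 1) * x * (if b then c⁻¹ else 1) →
      T x = (if a' then d else 1) * x * (if b' then d⁻¹ else 1) →
      (S * T) x = (T * S) x := by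
    intro x a b a' b' h1 h2 hS hT
    simp only [MulAut.mul_apply]
    cases a <;> cases b <;> cases a' <;> cases b' <;>
      simp only [if_true, if_false, Bool.false_eq_true, one_mul, mul_one, and_self, not_true_eq_false] at hS hT h1 h2 <;>
      simp [hS, hT, hSd, hTc, mul_assoc]
  refine fg_aut_ext (fun l hl => ?_) (fun l hl => ?_)
  · exact key _ _ _ _ _ (hα _ _) (hβ _ _) (hSa l hl) (hTa l hl)
  · exact key _ _ _ _ _ (hα _ _) (hβ _ _) (hSb l hl) (hTb l hl)

theorem comm_abstract2 {g : ℕ} {S T : MulAut (FG g)} {c d : FG g} {α β α' β' : ℕ → Bool → Bool}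
    (hSa : ∀ l < g, S (ga g l) = (if α l true then c else 1) * ga g l * (if β l true then c⁻¹ else 1))
    (hSb : ∀ l < g, S (gb g l) = (if α l false then c else 1) * gb g l * (if β l false then c⁻¹ else 1))
    (hTa : ∀ l < g, T (ga g l) = (if α' l true then d else 1) * ga g l * (if β' l true then d⁻¹ else 1))
    (hTb : ∀ l < g, T (gb g l) = (if α' l false then d else 1) * gb g l * (if β' l false then d⁻¹ else 1))
    (hSd : S d = d) (hTc : T c = d * c * d⁻¹) (hα : ∀ l s, α l s = true → α' l s = true)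
    (hβ : ∀ l s, β l s = true → β' l s = true) : Commute S T := by
  have key : ∀ (x : FG g) (a b a' b' : Bool), (a = true → a' = true) → (b = true → b' = true) →
      S x = (if a then c else 1) * x * (if b then c⁻¹ else 1) →
      T x = (if a' then d else 1) * x * (if b' then d⁻¹ else 1) →
      (S * T) x = (T * S) x := by
    intro x a b a' b' h1 h2 hS hT
    simp only [MulAut.mul_apply]
    cases a <;> cases b <;> cases a' <;> cases b' <;>
      simp only [if_true, if_false, Bool.false_eq_true, one_mul, mul_one, forall_const] at hS hT h1 h2 <;>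
      simp [hS, hT, hSd, hTc, mul_assoc]
  refine fg_aut_ext (fun l hl => ?_) (fun l hl => ?_)
  · exact key _ _ _ _ _ (hα _ _) (hβ _ _) (hSa l hl) (hTa l hl)
  · exact key _ _ _ _ _ (hα _ _) (hβ _ _) (hSb l hl) (hTb l hl)

section
variable {g : ℕ}

theorem A_gz {i l : ℕ} (hl : l < g) : tauA g i (gz g l) = gz g l := by
  by_cases e : l = i
  · subst e
    simp only [gz, map_mul, map_inv]
    rw [tauA_ga' hl, tauA_gb_self' hl]; simp [mul_assoc]
  · simp only [gz, map_mul, map_inv]
    rw [tauA_ga' hl, tauA_gb_ne' hl e]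

theorem B_gz {i l : ℕ} (hl : l < g) : tauB g i (gz g l) = gz g l := by
  by_cases e : l = i
  · subst e
    simp only [gz, map_mul, map_inv]
    rw [tauB_gb' hl, tauB_ga_self' hl]; simp [mul_assoc]
  · simp only [gz, map_mul, map_inv]
    rw [tauB_gb' hl, tauB_ga_ne' hl e]

theorem A_zr' {i a b : ℕ} (hb : b ≤ g) : tauA g i (zr g a b) = zr g a b :=
  hom_zr_fix (f := (tauA g i).toMonoidHom) fun l _ hl => A_gz (by omega)

theorem B_zr' {i a b : ℕ} (hb : b ≤ g) : tauB g i (zr g a b) = zr g a b :=
  hom_zr_fix (f := (tauB g i).toMonoidHom) fun l _ hl => B_gz (by omega)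

theorem comm_B_N1 {i j : ℕ} (h : i < j) (hj : j < g) : Commute (tauB g i) (tauN g i j) := by
  have hi : i < g := by omega
  refine comm_abstract2 (B_ga i) (B_gb i) (N_ga h hj) (N_gb h hj) ?_ ?_ ?_ ?_
  · simp only [nu, map_mul, map_inv]
    rw [tauB_gb' hi, tauB_gb' hj, tauB_ga_ne' hj h.ne', B_zr' hj.le]
  · rw [map_inv, N_gb_i h hj]; simp [mul_assoc]
  · simp [noB]
  · intro l s; simp only [bB, βN, decide_eq_true_eq]; omega

theorem comm_B_N2 {i j : ℕ} (h : i < j) (hj : j < g) : Commute (tauB g j) (tauN g i j) := by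
  have hi : i < g := by omega
  refine comm_abstract1 (B_ga j) (B_gb j) (N_ga h hj) (N_gb h hj) ?_ ?_ ?_ ?_
  · simp only [nu, map_mul, map_inv]
    rw [tauB_gb' hi, tauB_gb' hj, tauB_ga_self' hj, B_zr' hj.le]
    simp [mul_assoc]
  · rw [map_inv, N_gb_j h hj]
  · simp [noB]
  · intro l s; simp only [bB, βN, decide_eq_true_eq]; omega

theorem comm_A_N {i j l : ℕ} (h : i < j) (hj : j < g) (hl : l < g) (h1 : l ≠ i) (h2 : l ≠ j) :
    Commute (tauA g l) (tauN g i j) := by
  have hi : i < g := by omega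
  have hd : tauA g l (nu g i j) = nu g i j := by
    simp only [nu, map_mul, map_inv]
    rw [tauA_gb_ne' hi (Ne.symm h1), tauA_gb_ne' hj (Ne.symm h2), tauA_ga' hj, A_zr' hj.le]
  by_cases hin : i < l ∧ l < j
  · refine comm_abstract2 (A_ga l) (A_gb l) (N_ga h hj) (N_gb h hj) hd (N_ga_in h hj hin.1 hin.2) ?_ ?_
    · simp [noB]
    · intro l' s; simp only [bA, βN, decide_eq_true_eq]; omega
  · refine comm_abstract1 (A_ga l) (A_gb l) (N_ga h hj) (N_gb h hj) hd (N_ga_out h hj hl (by omega)) ?_ ?_
    · simp [noB]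
    · intro l' s; simp only [bA, βN, decide_eq_true_eq]; omega

theorem comm_B_N {i j l : ℕ} (h : i < j) (hj : j < g) (hl : l < g) (h1 : l ≠ i) (h2 : l ≠ j) :
    Commute (tauB g l) (tauN g i j) := by
  have hi : i < g := by omega
  have hd : tauB g l (nu g i j) = nu g i j := by
    simp only [nu, map_mul, map_inv]
    rw [tauB_gb' hi, tauB_gb' hj, tauB_ga_ne' hj (Ne.symm h2), B_zr' hj.le]
  by_cases hin : i < l ∧ l < j
  · refine comm_abstract2 (B_ga l) (B_gb l) (N_ga h hj) (N_gb h hj) hd ?_ ?_ ?_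
    · rw [map_inv, N_gb_in h hj hin.1 hin.2]; simp [mul_assoc]
    · simp [noB]
    · intro l' s; simp only [bB, βN, decide_eq_true_eq]; omega
  · refine comm_abstract1 (B_ga l) (B_gb l) (N_ga h hj) (N_gb h hj) hd ?_ ?_ ?_
    · rw [map_inv, N_gb_out h hj hl (by omega)]
    · simp [noB]
    · intro l' s; simp only [bB, βN, decide_eq_true_eq]; omega

theorem comm_N_N1 {l i j : ℕ} (h1 : l < i) (h : i < j) (hj : j < g) :
    Commute (tauN g l i) (tauN g i j) := by
  have hi : i < g := by omega
  have hl : l < g := by omega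
  refine comm_abstract1 (N_ga h1 hi) (N_gb h1 hi) (N_ga h hj) (N_gb h hj) ?_ ?_ ?_ ?_
  · simp only [nu, map_mul, map_inv]
    rw [N_gb_j h1 hi, N_zr_out h1 hi hj.le (by omega), N_ga_out h1 hi hj (by omega), N_gb_out h1 hi hj (by omega)]
  · simp only [nu, map_mul, map_inv]
    rw [N_gb_out h hj hl (by omega), N_zr_out h hj hi.le (by omega), N_ga_i h hj, N_gb_i h hj]
    simp [mul_assoc]
  · intro l' s; simp only [αN, decide_eq_true_eq]
    cases s <;> simp <;> omega
  · intro l' s; simp only [βN, decide_eq_true_eq]; omega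

theorem comm_N_N2 {i l j : ℕ} (h1 : i < l) (h : l < j) (hj : j < g) :
    Commute (tauN g l j) (tauN g i j) := by
  have hij : i < j := by omega
  have hi : i < g := by omega
  have hl : l < g := by omega
  have hν : nu g i j = (gb g i)⁻¹ * zr g (i + 1) l * gz g l * zr g (l + 1) j * ga g j * gb g j * (ga g j)⁻¹ := by
    rw [nu, zr_split g (by omega : i + 1 ≤ l) h.le, zr_succ_left g h]
    simp [mul_assoc]
  refine comm_abstract2 (N_ga h hj) (N_gb h hj) (N_ga hij hj) (N_gb hij hj) ?_ ?_ ?_ ?_
  · rw [hν]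
    simp only [gz, map_mul, map_inv]
    rw [N_gb_out h hj hi (by omega), N_zr_out h hj hl.le (by omega), N_ga_i h hj, N_gb_i h hj,
      N_zr_in h hj (by omega) le_rfl, N_ga_j h hj, N_gb_j h hj]
    simp [nu, mul_assoc]
  · rw [nu.eq_def g l j]
    simp only [map_mul, map_inv]
    rw [N_gb_in hij hj h1 h, N_zr_in hij hj (by omega) le_rfl, N_ga_j hij hj, N_gb_j hij hj]
    simp [mul_assoc]
  · intro l' s; simp only [αN, decide_eq_true_eq]; cases s <;> simp <;> omega
  · intro l' s; simp only [βN, decide_eq_true_eq]; omega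

theorem comm_N_N3 {i j l : ℕ} (h : i < j) (hj : j < g) (hl : l + 1 < g) (h1 : l ≠ i) (h2 : l ≠ j)
    (h3 : l + 1 ≠ i) (h4 : l + 1 ≠ j) : Commute (tauN g l (l + 1)) (tauN g i j) := by
  have hi : i < g := by omega
  have hll : l < l + 1 := by omega
  by_cases hin : i < l ∧ l < j
  · obtain ⟨hin1, hin2⟩ := hin
    have hν : nu g i j = (gb g i)⁻¹ * zr g (i + 1) l * gz g l * gz g (l + 1) * zr g (l + 1 + 1) j * ga g j *
        gb g j * (ga g j)⁻¹ := by
      rw [nu, zr_split g (by omega : i + 1 ≤ l) hin2.le, zr_succ_left g hin2,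
        zr_succ_left g (by omega : l + 1 < j)]
      simp [mul_assoc]
    refine comm_abstract2 (N_ga hll hl) (N_gb hll hl) (N_ga h hj) (N_gb h hj) ?_ ?_ ?_ ?_
    · rw [hν]
      simp only [gz, map_mul, map_inv]
      rw [N_gb_out hll hl hi (by omega), N_zr_out hll hl (by omega) (by omega), N_ga_i hll hl, N_gb_i hll hl,
        N_zr_out hll hl (by omega) (by omega), N_ga_j hll hl, N_gb_j hll hl, N_ga_out hll hl hj (by omega),
        N_gb_out hll hl hj (by omega)]
      rw [nu_succ]
      simp [mul_assoc]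
    · rw [nu_succ]
      simp only [map_mul, map_inv]
      rw [N_gb_in h hj (by omega) (by omega), N_ga_in h hj (by omega) (by omega),
        N_gb_in h hj (by omega) (by omega)]
      simp [mul_assoc]
    · intro l' s; simp only [αN, decide_eq_true_eq]; cases s <;> simp <;> omega
    · intro l' s; simp only [βN, decide_eq_true_eq]; omega
  · refine comm_abstract1 (N_ga hll hl) (N_gb hll hl) (N_ga h hj) (N_gb h hj) ?_ ?_ ?_ ?_
    · simp only [nu, map_mul, map_inv]
      rw [N_gb_out hll hl hi (by omega), N_zr_out hll hl hj.le (by omega), N_ga_out hll hl hj (by omega),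
        N_gb_out hll hl hj (by omega)]
    · rw [nu_succ]
      simp only [map_mul, map_inv]
      rw [N_gb_out h hj (by omega) (by omega), N_ga_out h hj (by omega) (by omega),
        N_gb_out h hj (by omega) (by omega)]
    · intro l' s; simp only [αN, decide_eq_true_eq]; cases s <;> simp <;> omega
    · intro l' s; simp only [βN, decide_eq_true_eq]; omega

end

end Pool.Agent.helper18.Hz
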