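import Pool.Agent.helper18.Hz.Braid
import Pool.Agent.helper35.Hz.Kdefs

/-! # MODULE E, part 1: `tauM_step`, `tauN_eq` -/

namespace Pool.Agent.helper18.Hz
open Pool.Agent.helper35.Hz

set_option linter.unusedSimpArgs false

section
variable {g : ℕ}

theorem mu_succ (g i : ℕ) : mu g i (i + 1) = gb g i * (ga g i)⁻¹ * (gb g i)⁻¹ * ga g (i + 1) := by
  simp [mu, zr_self]

theorem M_inv_ga {i j : ℕ} (h : i < j) (hj : j < g) : ∀ l < g, (tauM g i j)⁻¹ (ga g l) =
    (if αM i j l true then (mu g i j)⁻¹ else 1) * ga g l * (if βM i j l true then (mu g i j) else 1) := by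
  intro l hl
  rw [tauM, dif_pos ⟨h, hj⟩]
  exact tw_inv_ga hl

theorem M_inv_gb {i j : ℕ} (h : i < j) (hj : j < g) : ∀ l < g, (tauM g i j)⁻¹ (gb g l) =
    (if αM i j l false then (mu g i j)⁻¹ else 1) * gb g l * (if βM i j l false then (mu g i j) else 1) := by
  intro l hl
  rw [tauM, dif_pos ⟨h, hj⟩]
  exact tw_inv_gb hl

theorem M_ga_in {i j l : ℕ} (h : i < j) (hj : j < g) (h1 : i < l) (h2 : l < j) :
    tauM g i j (ga g l) = mu g i j * ga g l * (mu g i j)⁻¹ := by
  rw [M_ga h hj l (by omega), if_pos, if_pos]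
  · simp only [βM, decide_eq_true_eq]; omega
  · simp only [αM, decide_eq_true_eq]; omega

theorem M_gb_in {i j l : ℕ} (h : i < j) (hj : j < g) (h1 : i < l) (h2 : l < j) :
    tauM g i j (gb g l) = mu g i j * gb g l * (mu g i j)⁻¹ := by
  rw [M_gb h hj l (by omega), if_pos, if_pos]
  · simp only [βM, decide_eq_true_eq]; omega
  · simp only [αM, decide_eq_true_eq]; omega

/-- values of `stepF` -/
theorem stepF_values {j : ℕ} (hj : j + 1 < g) :
    stepF g j (ga g j) = ga g j * gb g j * (ga g j)⁻¹ * (gb g j)⁻¹ * ga g (j + 1) ∧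
    stepF g j (gb g j) = gb g (j + 1) * (mu g j (j + 1))⁻¹ * gb g j * mu g j (j + 1) ∧
    stepF g j (ga g (j + 1)) = gb g (j + 1) * (mu g j (j + 1))⁻¹ * gb g j * mu g j (j + 1) * (gb g j)⁻¹ *
      mu g j (j + 1) * (gb g (j + 1))⁻¹ ∧
    stepF g j (gb g (j + 1)) = gb g (j + 1) * (mu g j (j + 1))⁻¹ * (gb g j)⁻¹ * mu g j (j + 1) *
      (gb g (j + 1))⁻¹ := by
  have hj' : j < g := by omega
  have hn : j + 1 ≠ j := by omega
  have hn' : j ≠ j + 1 := by omega
  have hlt : j < j + 1 := by omega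
  -- `M`
  have M1 : tauM g j (j + 1) (ga g j) = ga g j := M_ga_i hlt hj
  have M2 : tauM g j (j + 1) (gb g j) = mu g j (j + 1) * gb g j := M_gb_i hlt hj
  have M3 : tauM g j (j + 1) (ga g (j + 1)) = mu g j (j + 1) * ga g (j + 1) * (mu g j (j + 1))⁻¹ := M_ga_j hlt hj
  have M4 : tauM g j (j + 1) (gb g (j + 1)) = gb g (j + 1) * (mu g j (j + 1))⁻¹ := M_gb_j hlt hj
  have M1' : (tauM g j (j + 1))⁻¹ (ga g j) = ga g j := by
    rw [M_inv_ga hlt hj j hj']; simp [αM, βM]
  have M2' : (tauM g j (j + 1))⁻¹ (gb g j) = (mu g j (j + 1))⁻¹ * gb g j := by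
    rw [M_inv_gb hlt hj j hj']; simp [αM, βM]
  have M3' : (tauM g j (j + 1))⁻¹ (ga g (j + 1)) = (mu g j (j + 1))⁻¹ * ga g (j + 1) * mu g j (j + 1) := by
    rw [M_inv_ga hlt hj _ hj]; simp [αM, βM]
  have M4' : (tauM g j (j + 1))⁻¹ (gb g (j + 1)) = gb g (j + 1) * mu g j (j + 1) := by
    rw [M_inv_gb hlt hj _ hj]; simp [αM, βM]
  rw [mu_succ] at M2 M3 M4 M2' M3' M4'
  rw [mu_succ]
  have B1 := tauB_ga_self' hj'
  have B2 := tauB_gb' (i := j) hj'
  have B3 := tauB_ga_ne' (i := j) hj hn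
  have B4 := tauB_gb' (i := j) hj
  have C1 := tauB_ga_ne' (i := j + 1) hj' hn'
  have C2 := tauB_gb' (i := j + 1) hj'
  have C3 := tauB_ga_self' hj
  have C4 := tauB_gb' (i := j + 1) hj
  have D1 := tauA_ga' (i := j + 1) hj'
  have D2 := tauA_gb_ne' (i := j + 1) hj' hn'
  have D3 := tauA_ga' (i := j + 1) hj
  have D4 := tauA_gb_self' hj
  have E1 := tauA_inv_ga' (i := j) hj'
  have E2 := tauA_inv_gb_self' hj'
  have E3 := tauA_inv_ga' (i := j) hj
  have E4 := tauA_inv_gb_ne' (i := j) hj hn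
  have F1 := tauB_inv_ga_self' hj'
  have F2 := tauB_inv_gb' (i := j) hj'
  have F3 := tauB_inv_ga_ne' (i := j) hj hn
  have F4 := tauB_inv_gb' (i := j) hj
  have G1 := tauB_inv_ga_ne' (i := j + 1) hj' hn'
  have G2 := tauB_inv_gb' (i := j + 1) hj'
  have G3 := tauB_inv_ga_self' hj
  have G4 := tauB_inv_gb' (i := j + 1) hj
  simp only [stepF, MulAut.mul_apply]
  refine ⟨?_, ?_, ?_, ?_⟩
  · simp only [B1, map_mul, map_inv, M1, M2, C1, C2, C3, C4, D1, D2, D3, D4, E1, E2, E3, E4, F1, F2, F3, F4, M1', M2', M3',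
      M4', G1, G2, G3, G4, mul_inv_rev, inv_inv]
    group
  · simp only [B1, B2, B3, B4, M1, M2, M3, M4, map_mul, map_inv, C1, C2, C3, C4, D1, D2, D3, D4, E1, E2, E3, E4, F1, F2, F3, F4, M1', M2', M3',
      M4', G1, G2, G3, G4, mul_inv_rev, inv_inv]
    group
  · simp only [B1, B2, B3, B4, M1, M2, M3, M4, map_mul, map_inv, C1, C2, C3, C4, D1, D2, D3, D4, E1, E2, E3, E4, F1, F2, F3, F4, M1', M2', M3',
      M4', G1, G2, G3, G4, mul_inv_rev, inv_inv]
    group
  · simp only [B1, B2, B3, B4, M1, M2, M3, M4, map_mul, map_inv, C1, C2, C3, C4, D1, D2, D3, D4, E1, E2, E3, E4, F1, F2, F3, F4, M1', M2', M3',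
      M4', G1, G2, G3, G4, mul_inv_rev, inv_inv]
    group

theorem stepF_out {j l : ℕ} (hj : j + 1 < g) (hl : l < g) (h : l < j ∨ j + 1 < l) :
    stepF g j (ga g l) = ga g l ∧ stepF g j (gb g l) = gb g l := by
  have hj' : j < g := by omega
  have hlt : j < j + 1 := by omega
  have h1 : l ≠ j := by omega
  have h2 : l ≠ j + 1 := by omega
  have M1 : tauM g j (j + 1) (ga g l) = ga g l := M_ga_out hlt hj hl (by omega)
  have M2 : tauM g j (j + 1) (gb g l) = gb g l := M_gb_out hlt hj hl (by omega)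
  have M1' : (tauM g j (j + 1))⁻¹ (ga g l) = ga g l := by
    rw [MulAut.inv_apply, MulEquiv.symm_apply_eq, M1]
  have M2' : (tauM g j (j + 1))⁻¹ (gb g l) = gb g l := by
    rw [MulAut.inv_apply, MulEquiv.symm_apply_eq, M2]
  simp only [stepF, MulAut.mul_apply]
  refine ⟨?_, ?_⟩
  · rw [tauB_ga_ne' hl h1, M1, tauB_ga_ne' hl h2, tauA_ga' hl, tauA_inv_ga' hl, tauB_inv_ga_ne' hl h1, M1',
      tauB_inv_ga_ne' hl h2]
  · rw [tauB_gb' hl, M2, tauB_gb' hl, tauA_gb_ne' hl h2, tauA_inv_gb_ne' hl h1, tauB_inv_gb' hl, M2',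
      tauB_inv_gb' hl]

theorem stepF_mu {i j : ℕ} (h : i < j) (hj : j + 1 < g) : stepF g j (mu g i j) = mu g i (j + 1) := by
  have hj' : j < g := by omega
  have h1 := stepF_out (l := i) hj (by omega) (by omega)
  have hz : stepF g j (zr g (i + 1) j) = zr g (i + 1) j :=
    map_zr_fix fun l h1 h2 => stepF_out hj (by omega) (by omega)
  rw [mu, mu, zr_succ g (by omega : i + 1 ≤ j)]
  simp only [map_mul, map_inv]
  rw [h1.1, h1.2, hz, (stepF_values hj).1]
  simp [gz, mul_assoc]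

theorem tauM_step {g i j : ℕ} (h : i < j) (hj : j + 1 < g) :
    tauM g i (j + 1) = stepF g j * tauM g i j * (stepF g j)⁻¹ := by
  have hj' : j < g := by omega
  have hi : i < g := by omega
  have hij : i < j + 1 := by omega
  have hμ := stepF_mu h hj
  obtain ⟨V1, V2, V3, V4⟩ := stepF_values hj
  rw [eq_mul_inv_iff_mul_eq]
  have T1 : tauM g i (j + 1) (ga g j) = mu g i (j + 1) * ga g j * (mu g i (j + 1))⁻¹ :=
    M_ga_in hij hj h (by omega)
  have T2 : tauM g i (j + 1) (gb g j) = mu g i (j + 1) * gb g j * (mu g i (j + 1))⁻¹ :=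
    M_gb_in hij hj h (by omega)
  have T3 : tauM g i (j + 1) (ga g (j + 1)) = mu g i (j + 1) * ga g (j + 1) * (mu g i (j + 1))⁻¹ :=
    M_ga_j hij hj
  have T4 : tauM g i (j + 1) (gb g (j + 1)) = gb g (j + 1) * (mu g i (j + 1))⁻¹ := M_gb_j hij hj
  have T5 : tauM g i (j + 1) (mu g j (j + 1)) = mu g i (j + 1) * mu g j (j + 1) * (mu g i (j + 1))⁻¹ := by
    rw [mu_succ]
    simp only [map_mul, map_inv, T1, T2, T3]
    group
  refine fg_aut_ext (fun l hl => ?_) (fun l hl => ?_)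
  · simp only [MulAut.mul_apply]
    rcases lt_trichotomy l j with hlj | rfl | hlj
    · rw [(stepF_out hj hl (by omega)).1]
      rcases lt_trichotomy l i with hli | rfl | hli
      · rw [M_ga_out hij hj hl (by omega), M_ga_out h hj' hl (by omega), (stepF_out hj hl (by omega)).1]
      · rw [M_ga_i hij hj, M_ga_i h hj', (stepF_out hj hl (by omega)).1]
      · rw [M_ga_in hij hj hli (by omega), M_ga_in h hj' hli hlj, map_mul, map_mul, map_inv, hμ,
          (stepF_out hj hl (by omega)).1]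
    · rw [M_ga_j h hj', map_mul, map_mul, map_inv, hμ, V1]
      simp only [map_mul, map_inv, T1, T2, T3]
      group
    · rcases eq_or_ne l (j + 1) with rfl | hne
      · rw [M_ga_out h hj' hl (by omega), V3]
        simp only [map_mul, map_inv, T2, T4, T5]
        group
      · rw [M_ga_out h hj' hl (by omega), (stepF_out hj hl (by omega)).1, M_ga_out hij hj hl (by omega)]
  · simp only [MulAut.mul_apply]
    rcases lt_trichotomy l j with hlj | rfl | hlj
    · rw [(stepF_out hj hl (by omega)).2]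
      rcases lt_trichotomy l i with hli | rfl | hli
      · rw [M_gb_out hij hj hl (by omega), M_gb_out h hj' hl (by omega), (stepF_out hj hl (by omega)).2]
      · rw [M_gb_i hij hj, M_gb_i h hj', map_mul, hμ, (stepF_out hj hl (by omega)).2]
      · rw [M_gb_in hij hj hli (by omega), M_gb_in h hj' hli hlj, map_mul, map_mul, map_inv, hμ,
          (stepF_out hj hl (by omega)).2]
    · rw [M_gb_j h hj', map_mul, map_inv, hμ, V2]
      simp only [map_mul, map_inv, T2, T4, T5]
      group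
    · rcases eq_or_ne l (j + 1) with rfl | hne
      · rw [M_gb_out h hj' hl (by omega), V4]
        simp only [map_mul, map_inv, T2, T4, T5]
        group
      · rw [M_gb_out h hj' hl (by omega), (stepF_out hj hl (by omega)).2, M_gb_out hij hj hl (by omega)]

/-- the element moving `μ_{ij}` to `ν_{ij}` -/
theorem tauN_eq {g i j : ℕ} (h : i < j) (hj : j < g) :
    tauN g i j = (tauA g j * tauB g j * tauA g i * tauB g i) * tauM g i j *
      (tauA g j * tauB g j * tauA g i * tauB g i)⁻¹ := by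
  have hi : i < g := by omega
  have hne : i ≠ j := h.ne
  have hne' : j ≠ i := h.ne'
  have W1 : (tauA g j * tauB g j * tauA g i * tauB g i) (ga g i) = ga g i * gb g i * (ga g i)⁻¹ := by
    simp only [MulAut.mul_apply]
    rw [tauB_ga_self' hi]
    simp only [map_mul, map_inv, tauA_ga' hi, tauA_gb_self' hi, tauB_ga_ne' hi hne, tauB_gb' hi,
      tauA_gb_ne' hi hne]
    group
  have W2 : (tauA g j * tauB g j * tauA g i * tauB g i) (gb g i) = gb g i * (ga g i)⁻¹ := by
    simp only [MulAut.mul_apply]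
    rw [tauB_gb' hi]
    simp only [map_mul, map_inv, tauA_ga' hi, tauA_gb_self' hi, tauB_ga_ne' hi hne, tauB_gb' hi,
      tauA_gb_ne' hi hne]
  have W3 : (tauA g j * tauB g j * tauA g i * tauB g i) (ga g j) = ga g j * gb g j * (ga g j)⁻¹ := by
    simp only [MulAut.mul_apply]
    rw [tauB_ga_ne' hj hne', tauA_ga' hj, tauB_ga_self' hj]
    simp only [map_mul, map_inv, tauA_ga' hj, tauA_gb_self' hj]
    group
  have W4 : (tauA g j * tauB g j * tauA g i * tauB g i) (gb g j) = gb g j * (ga g j)⁻¹ := by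
    simp only [MulAut.mul_apply]
    rw [tauB_gb' hj, tauA_gb_ne' hj hne', tauB_gb' hj, tauA_gb_self' hj]
  have W5 : ∀ l < g, l ≠ i → l ≠ j → (tauA g j * tauB g j * tauA g i * tauB g i) (ga g l) = ga g l ∧
      (tauA g j * tauB g j * tauA g i * tauB g i) (gb g l) = gb g l := by
    intro l hl h1 h2
    simp only [MulAut.mul_apply]
    refine ⟨?_, ?_⟩
    · rw [tauB_ga_ne' hl h1, tauA_ga' hl, tauB_ga_ne' hl h2, tauA_ga' hl]
    · rw [tauB_gb' hl, tauA_gb_ne' hl h1, tauB_gb' hl, tauA_gb_ne' hl h2]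
  generalize hW : tauA g j * tauB g j * tauA g i * tauB g i = W at *
  have W6 : W (mu g i j) = nu g i j := by
    rw [mu, nu]
    simp only [map_mul, map_inv]
    rw [W1, W2, W3, map_zr_fix (f := W) fun l h1 h2 => W5 l (by omega) (by omega) (by omega)]
    group
  rw [eq_mul_inv_iff_mul_eq]
  refine fg_aut_ext (fun l hl => ?_) (fun l hl => ?_)
  · simp only [MulAut.mul_apply]
    rcases eq_or_ne l i with rfl | h1
    · rw [M_ga_i h hj, W1]
      simp only [map_mul, map_inv, N_ga_i h hj, N_gb_i h hj]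
      group
    rcases eq_or_ne l j with rfl | h2
    · rw [M_ga_j h hj, W3, map_mul W, map_mul W, map_inv W, W6, W3]
      simp only [map_mul, map_inv, N_ga_j h hj, N_gb_j h hj]
      group
    rw [(W5 l hl h1 h2).1]
    by_cases h3 : i < l ∧ l < j
    · rw [M_ga_in h hj h3.1 h3.2, map_mul W, map_mul W, map_inv W, W6, (W5 l hl h1 h2).1, N_ga_in h hj h3.1 h3.2]
    · rw [M_ga_out h hj hl (by omega), (W5 l hl h1 h2).1, N_ga_out h hj hl (by omega)]
  · simp only [MulAut.mul_apply]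
    rcases eq_or_ne l i with rfl | h1
    · rw [M_gb_i h hj, W2, map_mul W, W6, W2]
      simp only [map_mul, map_inv, N_ga_i h hj, N_gb_i h hj]
      group
    rcases eq_or_ne l j with rfl | h2
    · rw [M_gb_j h hj, W4, map_mul W, map_inv W, W6, W4]
      simp only [map_mul, map_inv, N_ga_j h hj, N_gb_j h hj]
      group
    rw [(W5 l hl h1 h2).2]
    by_cases h3 : i < l ∧ l < j
    · rw [M_gb_in h hj h3.1 h3.2, map_mul W, map_mul W, map_inv W, W6, (W5 l hl h1 h2).2, N_gb_in h hj h3.1 h3.2]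
    · rw [M_gb_out h hj hl (by omega), (W5 l hl h1 h2).2, N_gb_out h hj hl (by omega)]

/-! ### membership -/

theorem A_pair {g m i : ℕ} (h : i < m) : (tauA g i, tauA m i) ∈ Lpair g m :=
  Subgroup.subset_closure (Or.inl (Or.inl ⟨i, h, rfl⟩))

theorem B_pair {g m i : ℕ} (h : i < m) : (tauB g i, tauB m i) ∈ Lpair g m :=
  Subgroup.subset_closure (Or.inl (Or.inr ⟨i, h, rfl⟩))

theorem M_pair {g m i : ℕ} (h : i + 1 < m) : (tauM g i (i + 1), tauM m i (i + 1)) ∈ Lpair g m :=
  Subgroup.subset_closure (Or.inr ⟨i, h, rfl⟩)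

theorem stepF_pair {g m j : ℕ} (h : j + 1 < m) : (stepF g j, stepF m j) ∈ Lpair g m := by
  have hA := A_pair (g := g) (m := m) (i := j) (by omega)
  have hA' := A_pair (g := g) (m := m) (i := j + 1) h
  have hB := B_pair (g := g) (m := m) (i := j) (by omega)
  have hB' := B_pair (g := g) (m := m) (i := j + 1) h
  have hM := M_pair (g := g) (m := m) (i := j) h
  have := (Lpair g m).mul_mem ((Lpair g m).mul_mem ((Lpair g m).mul_mem ((Lpair g m).mul_mem
    ((Lpair g m).mul_mem ((Lpair g m).mul_mem ((Lpair g m).mul_mem ((Lpair g m).inv_mem hB')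
    ((Lpair g m).inv_mem hM)) ((Lpair g m).inv_mem hB)) ((Lpair g m).inv_mem hA)) hA') hB') hM) hB
  exact this

theorem tauM_pair {g m i j : ℕ} (h : i < j) (hj : j < m) (hm : m ≤ g) :
    (tauM g i j, tauM m i j) ∈ Lpair g m := by
  induction j with
  | zero => omega
  | succ j ih =>
    rcases eq_or_ne i j with rfl | hne
    · exact M_pair hj
    · have hij : i < j := by omega
      have e1 := tauM_step hij (by omega : j + 1 < g)
      have e2 := tauM_step hij hj
      have f1 : (stepF g j, stepF m j) ∈ Lpair g m := stepF_pair hj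
      have f2 : (tauM g i j, tauM m i j) ∈ Lpair g m := ih hij (by omega)
      have e3 : (tauM g i (j + 1), tauM m i (j + 1)) =
          (stepF g j, stepF m j) * (tauM g i j, tauM m i j) * (stepF g j, stepF m j)⁻¹ := Prod.ext e1 e2
      rw [e3]
      exact (Lpair g m).mul_mem ((Lpair g m).mul_mem f1 f2) ((Lpair g m).inv_mem f1)

theorem tauN_pair {g m i j : ℕ} (h : i < j) (hj : j < m) (hm : m ≤ g) :
    (tauN g i j, tauN m i j) ∈ Lpair g m := by
  have hW : (tauA g j * tauB g j * tauA g i * tauB g i, tauA m j * tauB m j * tauA m i * tauB m i) ∈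
      Lpair g m := by
    have a1 : (tauA g j, tauA m j) ∈ Lpair g m := A_pair hj
    have b1 : (tauB g j, tauB m j) ∈ Lpair g m := B_pair hj
    have a2 : (tauA g i, tauA m i) ∈ Lpair g m := A_pair (by omega)
    have b2 : (tauB g i, tauB m i) ∈ Lpair g m := B_pair (by omega)
    have e : (tauA g j * tauB g j * tauA g i * tauB g i, tauA m j * tauB m j * tauA m i * tauB m i) =
      (tauA g j, tauA m j) * (tauB g j, tauB m j) * (tauA g i, tauA m i) * (tauB g i, tauB m i) := rfl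
    rw [e]
    exact (Lpair g m).mul_mem ((Lpair g m).mul_mem ((Lpair g m).mul_mem a1 b1) a2) b2
  have e1 := tauN_eq h (by omega : j < g)
  have e2 := tauN_eq h hj
  have := (Lpair g m).mul_mem ((Lpair g m).mul_mem hW (tauM_pair h hj hm)) ((Lpair g m).inv_mem hW)
  have e3 : (tauN g i j, tauN m i j) = (tauA g j * tauB g j * tauA g i * tauB g i,
      tauA m j * tauB m j * tauA m i * tauB m i) * (tauM g i j, tauM m i j) *
      (tauA g j * tauB g j * tauA g i * tauB g i, tauA m j * tauB m j * tauA m i * tauB m i)⁻¹ :=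
    Prod.ext e1 e2
  rw [e3]
  exact this

theorem Lam_of_Lpair {g : ℕ} {p : MulAut (FG g) × MulAut (FG g)} (hp : p ∈ Lpair g g) : p.1 ∈ Lam g := by
  have : Lpair g g ≤ (Lam g).comap (MonoidHom.fst _ _) := by
    rw [Lpair, Subgroup.closure_le]
    rintro q ((⟨i, hi, rfl⟩ | ⟨i, hi, rfl⟩) | ⟨i, hi, rfl⟩)
    · exact Subgroup.subset_closure (Or.inl (Or.inl ⟨i, hi, rfl⟩))
    · exact Subgroup.subset_closure (Or.inl (Or.inr ⟨i, hi, rfl⟩))
    · exact Subgroup.subset_closure (Or.inr ⟨i, hi, rfl⟩)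
  exact this hp

theorem A_Lam {g i : ℕ} (h : i < g) : tauA g i ∈ Lam g := Lam_of_Lpair (A_pair h)
theorem B_Lam {g i : ℕ} (h : i < g) : tauB g i ∈ Lam g := Lam_of_Lpair (B_pair h)

theorem tauM_Lam {g i j : ℕ} (h : i < j) (hj : j < g) : tauM g i j ∈ Lam g :=
  Lam_of_Lpair (tauM_pair h hj le_rfl)

theorem tauN_Lam {g i j : ℕ} (h : i < j) (hj : j < g) : tauN g i j ∈ Lam g :=
  Lam_of_Lpair (tauN_pair h hj le_rfl)

theorem uu_Lam {g off j : ℕ} (h : off + j / 2 < g) : uu g off j ∈ Lam g := by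
  unfold uu
  split_ifs with h1 h2
  · exact B_Lam (by omega)
  · exact (Lam g).mul_mem ((Lam g).mul_mem (B_Lam h) (A_Lam h)) ((Lam g).inv_mem (B_Lam h))
  · exact tauN_Lam (by omega) h

theorem UU_Lam {k j : ℕ} (h : j < 2 * k) : UU k j ∈ Lam (2 * k) :=
  (Lam _).mul_mem (uu_Lam (by omega)) (uu_Lam (by omega))

theorem TT_Lam {k d : ℕ} (hk : 1 ≤ k) : TT k d ∈ Lam (2 * k) := by
  induction d with
  | zero =>
    rw [TT]
    exact tauN_Lam (by omega) (by omega)
  | succ d ih =>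
    rw [TT]
    have h := UU_Lam (k := k) (j := 2 * k - 1 - d) (by omega)
    exact (Lam _).mul_mem ((Lam _).mul_mem ((Lam _).inv_mem h) ih) h

theorem Tj_Lam {k j : ℕ} (hk : 1 ≤ k) : Tj k j ∈ Lam (2 * k) := TT_Lam hk

theorem delta_Lam {g k : ℕ} (hk : 1 ≤ k) (h : k ≤ g) : delta g k ∈ Lam g := by
  rw [delta_chain hk h]
  refine (Lam g).inv_mem ((Lam g).pow_mem ?_ _)
  refine (Lam g).list_prod_mem fun x hx => ?_
  obtain ⟨j, hj, rfl⟩ := List.mem_map.1 hx
  rw [List.mem_range] at hj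
  exact (Lam g).inv_mem (uu_Lam (by omega))

end

end Pool.Agent.helper18.Hz
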