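import Pool.Agent.helper35.Hz.Sdefs
import Pool.Agent.helper78.Hz.Abstract

/-! # MODULE S: the coordinates `s_m` -/

namespace Pool.Agent.helper18.Hz
open Pool.Agent.helper35.Hz

/-! ### alternating products -/

theorem altP_zero {O : Type*} [Group O] (y : ℕ → O) : altP y 0 = 1 := by simp [altP]

theorem altP_succ {O : Type*} [Group O] (y : ℕ → O) (j : ℕ) :
    altP y (j + 1) = altP y j * (if j % 2 = 0 then y j else (y j)⁻¹) := by
  simp [altP, List.range_succ]

theorem altQ_succ {O : Type*} [Group O] (y : ℕ → O) (j : ℕ) :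
    altQ y (j + 1) = altQ y j * (if j % 2 = 0 then (y j)⁻¹ else y j) := by
  simp [altQ, List.range_succ]

/-! ### the words `X_i` -/

theorem Xw_self (g off k : ℕ) : Xw g off k k = 1 := by simp [Xw]

theorem Xw_succ (g off : ℕ) {k i : ℕ} (h : i < k) :
    Xw g off k i = ga g (off + i) * gb g (off + i) * Xw g off k (i + 1) := by
  unfold Xw
  have : k - i = (k - (i + 1)) + 1 := by omega
  rw [this, List.range'_succ, List.map_cons, List.prod_cons]

theorem sc_zero (g off k : ℕ) : sc g off k 0 = (Xw g off k 0)⁻¹ := by simp [sc]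

theorem sc_odd (g off k i : ℕ) : sc g off k (2 * i + 1) = (ga g (off + i) * Xw g off k (i + 1))⁻¹ := by
  have h1 : (2 * i + 1) % 2 = 1 := by omega
  have h2 : (2 * i + 1) / 2 = i := by omega
  simp only [sc, h1, h2]
  simp

theorem sc_even (g off k i : ℕ) : sc g off k (2 * i + 2) = (Xw g off k (i + 1))⁻¹ * gb g (off + i) := by
  have h1 : (2 * i + 2) % 2 = 0 := by omega
  have h2 : (2 * i + 2) / 2 = i + 1 := by omega
  simp only [sc, h1, h2]
  simp

theorem sc_altP_aux {g off k : ℕ} (i : ℕ) (hi : i ≤ k) :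
    altP (sc g off k) (2 * i + 1) = (Xw g off k i)⁻¹ := by
  induction i with
  | zero => rw [Nat.mul_zero, altP_succ, altP_zero]; simp [sc_zero]
  | succ i ih =>
    have e : 2 * (i + 1) + 1 = (2 * i + 1) + 1 + 1 := by omega
    have h1 : ¬ ((2 * i + 1) % 2 = 0) := by omega
    have h2 : ((2 * i + 1 + 1) % 2 = 0) := by omega
    rw [e, altP_succ, altP_succ, ih (by omega), if_neg h1, if_pos h2, sc_odd, sc_even,
      Xw_succ g off (by omega : i < k)]
    simp [mul_assoc]

theorem sc_altP {g off k : ℕ} (h : off + k ≤ g) : altP (sc g off k) (2 * k + 1) = 1 := by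
  rw [sc_altP_aux k le_rfl, Xw_self, inv_one]

theorem sc_altQ_aux {g off k : ℕ} (i : ℕ) (hi : i ≤ k) :
    altQ (sc g off k) (2 * i + 1) = zr g off (off + i) * Xw g off k i := by
  induction i with
  | zero => rw [Nat.mul_zero, altQ_succ, altQ]; simp [sc_zero, zr_self]
  | succ i ih =>
    have e : 2 * (i + 1) + 1 = (2 * i + 1) + 1 + 1 := by omega
    have h1 : ¬ ((2 * i + 1) % 2 = 0) := by omega
    have h2 : ((2 * i + 1 + 1) % 2 = 0) := by omega
    rw [e, altQ_succ, altQ_succ, ih (by omega), if_neg h1, if_pos h2, sc_odd, sc_even,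
      Xw_succ g off (by omega : i < k), ← Nat.add_assoc, zr_succ g (by omega : off ≤ off + i), gz]
    simp [mul_assoc]

theorem sc_altQ {g off k : ℕ} (h : off + k ≤ g) :
    altQ (sc g off k) (2 * k + 1) = zr g off (off + k) := by
  rw [sc_altQ_aux k le_rfl, Xw_self, mul_one]

/-! ### generation -/

theorem Xw_mem {g off k : ℕ} (d : ℕ) (hd : d ≤ k) :
    Xw g off k (k - d) ∈ Subgroup.closure {x | ∃ m ≤ 2 * k, x = sc g off k m} := by
  induction d with
  | zero => rw [Nat.sub_zero, Xw_self]; exact Subgroup.one_mem _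
  | succ d ih =>
    have ih' := ih (by omega)
    set i := k - (d + 1) with hi
    have e : k - d = i + 1 := by omega
    rw [e] at ih'
    have h1 : sc g off k (2 * i + 1) ∈ Subgroup.closure {x | ∃ m ≤ 2 * k, x = sc g off k m} :=
      Subgroup.subset_closure ⟨2 * i + 1, by omega, rfl⟩
    have h2 : sc g off k (2 * i + 2) ∈ Subgroup.closure {x | ∃ m ≤ 2 * k, x = sc g off k m} :=
      Subgroup.subset_closure ⟨2 * i + 2, by omega, rfl⟩
    have h3 : Xw g off k i = (sc g off k (2 * i + 1))⁻¹ * sc g off k (2 * i + 2) * Xw g off k (i + 1) := by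
      rw [sc_odd, sc_even, Xw_succ g off (by omega : i < k)]
      simp [mul_assoc]
    rw [h3]
    exact Subgroup.mul_mem _ (Subgroup.mul_mem _ (Subgroup.inv_mem _ h1) h2) ih'

theorem sc_gen {g off k : ℕ} (h : off + k ≤ g) {i : ℕ} (hi : i < k) :
    ga g (off + i) ∈ Subgroup.closure {x | ∃ m ≤ 2 * k, x = sc g off k m} ∧
    gb g (off + i) ∈ Subgroup.closure {x | ∃ m ≤ 2 * k, x = sc g off k m} := by
  have h1 : sc g off k (2 * i + 1) ∈ Subgroup.closure {x | ∃ m ≤ 2 * k, x = sc g off k m} :=
    Subgroup.subset_closure ⟨2 * i + 1, by omega, rfl⟩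
  have h2 : sc g off k (2 * i + 2) ∈ Subgroup.closure {x | ∃ m ≤ 2 * k, x = sc g off k m} :=
    Subgroup.subset_closure ⟨2 * i + 2, by omega, rfl⟩
  have h3 := Xw_mem (g := g) (off := off) (k := k) (k - (i + 1)) (by omega)
  have e : k - (k - (i + 1)) = i + 1 := by omega
  rw [e] at h3
  have h4 : ga g (off + i) = (sc g off k (2 * i + 1))⁻¹ * (Xw g off k (i + 1))⁻¹ := by
    rw [sc_odd]; simp
  have h5 : gb g (off + i) = Xw g off k (i + 1) * sc g off k (2 * i + 2) := by
    rw [sc_even]; simp
  exact ⟨h4 ▸ Subgroup.mul_mem _ (Subgroup.inv_mem _ h1) (Subgroup.inv_mem _ h3),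
    h5 ▸ Subgroup.mul_mem _ h3 h2⟩

/-! ### the twists on generators -/

theorem tauA_ga' {g i l : ℕ} (hl : l < g) : tauA g i (ga g l) = ga g l := by
  rw [tauA, tw_ga hl]; simp [bA]

theorem tauA_gb_self' {g i : ℕ} (hi : i < g) : tauA g i (gb g i) = gb g i * (ga g i)⁻¹ := by
  rw [tauA, tw_gb hi]; simp [bA]

theorem tauA_gb_ne' {g i l : ℕ} (hl : l < g) (h : l ≠ i) : tauA g i (gb g l) = gb g l := by
  rw [tauA, tw_gb hl]; simp [bA, h]

theorem tauA_inv_ga' {g i l : ℕ} (hl : l < g) : (tauA g i)⁻¹ (ga g l) = ga g l := by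
  rw [tauA, tw_inv_ga hl]; simp [bA]

theorem tauA_inv_gb_self' {g i : ℕ} (hi : i < g) : (tauA g i)⁻¹ (gb g i) = gb g i * ga g i := by
  rw [tauA, tw_inv_gb hi]; simp [bA]

theorem tauA_inv_gb_ne' {g i l : ℕ} (hl : l < g) (h : l ≠ i) : (tauA g i)⁻¹ (gb g l) = gb g l := by
  rw [tauA, tw_inv_gb hl]; simp [bA, h]

theorem tauB_gb' {g i l : ℕ} (hl : l < g) : tauB g i (gb g l) = gb g l := by
  rw [tauB, tw_gb hl]; simp [bB]

theorem tauB_ga_self' {g i : ℕ} (hi : i < g) : tauB g i (ga g i) = ga g i * gb g i := by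
  rw [tauB, tw_ga hi]; simp [bB]

theorem tauB_ga_ne' {g i l : ℕ} (hl : l < g) (h : l ≠ i) : tauB g i (ga g l) = ga g l := by
  rw [tauB, tw_ga hl]; simp [bB, h]

theorem tauB_inv_gb' {g i l : ℕ} (hl : l < g) : (tauB g i)⁻¹ (gb g l) = gb g l := by
  rw [tauB, tw_inv_gb hl]; simp [bB]

theorem tauB_inv_ga_self' {g i : ℕ} (hi : i < g) : (tauB g i)⁻¹ (ga g i) = ga g i * (gb g i)⁻¹ := by
  rw [tauB, tw_inv_ga hi]; simp [bB]

theorem tauB_inv_ga_ne' {g i l : ℕ} (hl : l < g) (h : l ≠ i) : (tauB g i)⁻¹ (ga g l) = ga g l := by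
  rw [tauB, tw_inv_ga hl]; simp [bB, h]

/-! ### the chain on generators -/

theorem uu_zero (g off : ℕ) : uu g off 0 = tauB g off := by simp [uu]

theorem uu_odd (g off i : ℕ) :
    uu g off (2 * i + 1) = tauB g (off + i) * tauA g (off + i) * (tauB g (off + i))⁻¹ := by
  have h1 : (2 * i + 1) % 2 = 1 := by omega
  have h2 : (2 * i + 1) / 2 = i := by omega
  simp only [uu, h1, h2]
  simp

theorem uu_even (g off i : ℕ) : uu g off (2 * i + 2) = tauN g (off + i) (off + i + 1) := by
  have h1 : (2 * i + 2) % 2 = 0 := by omega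
  have h2 : (2 * i + 2) / 2 = i + 1 := by omega
  have h3 : off + (i + 1) - 1 = off + i := by omega
  simp only [uu, h1, h2, h3]
  simp [Nat.add_assoc]

theorem uuo_ga {g off i : ℕ} (hi : off + i < g) :
    (uu g off (2 * i + 1))⁻¹ (ga g (off + i)) = (gb g (off + i))⁻¹ := by
  rw [uu_odd, mul_inv_rev, mul_inv_rev, inv_inv]
  simp only [MulAut.mul_apply]
  rw [tauB_inv_ga_self' hi, map_mul, map_inv, tauA_inv_ga' hi, tauA_inv_gb_self' hi, map_mul, map_inv, map_mul,
    tauB_ga_self' hi, tauB_gb' hi]
  simp [mul_assoc]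

theorem uuo_gb {g off i : ℕ} (hi : off + i < g) :
    (uu g off (2 * i + 1))⁻¹ (gb g (off + i)) = gb g (off + i) * ga g (off + i) * gb g (off + i) := by
  rw [uu_odd, mul_inv_rev, mul_inv_rev, inv_inv]
  simp only [MulAut.mul_apply]
  rw [tauB_inv_gb' hi, tauA_inv_gb_self' hi, map_mul, tauB_ga_self' hi, tauB_gb' hi]
  simp [mul_assoc]

theorem uuo_ga_ne {g off i l : ℕ} (hl : l < g) (h : l ≠ off + i) :
    (uu g off (2 * i + 1))⁻¹ (ga g l) = ga g l := by
  rw [uu_odd, mul_inv_rev, mul_inv_rev, inv_inv]
  simp only [MulAut.mul_apply]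
  rw [tauB_inv_ga_ne' hl h, tauA_inv_ga' hl, tauB_ga_ne' hl h]

theorem uuo_gb_ne {g off i l : ℕ} (hl : l < g) (h : l ≠ off + i) :
    (uu g off (2 * i + 1))⁻¹ (gb g l) = gb g l := by
  rw [uu_odd, mul_inv_rev, mul_inv_rev, inv_inv]
  simp only [MulAut.mul_apply]
  rw [tauB_inv_gb' hl, tauA_inv_gb_ne' hl h, tauB_gb' hl]

theorem nu_succ (g i : ℕ) : nu g i (i + 1) = (gb g i)⁻¹ * ga g (i + 1) * gb g (i + 1) * (ga g (i + 1))⁻¹ := by
  simp [nu, zr_self]

theorem uue_ga {g off i : ℕ} (hi : off + i + 1 < g) :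
    (uu g off (2 * i + 2))⁻¹ (ga g (off + i)) = ga g (off + i) * nu g (off + i) (off + i + 1) := by
  rw [uu_even, tauN, dif_pos ⟨by omega, hi⟩, tw_inv_ga (by omega)]
  simp [αN, βN]

theorem uue_gb {g off i : ℕ} (hi : off + i + 1 < g) :
    (uu g off (2 * i + 2))⁻¹ (gb g (off + i)) =
      (nu g (off + i) (off + i + 1))⁻¹ * gb g (off + i) * nu g (off + i) (off + i + 1) := by
  rw [uu_even, tauN, dif_pos ⟨by omega, hi⟩, tw_inv_gb (by omega)]
  simp [αN, βN]

theorem uue_ga' {g off i : ℕ} (hi : off + i + 1 < g) :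
    (uu g off (2 * i + 2))⁻¹ (ga g (off + i + 1)) = (nu g (off + i) (off + i + 1))⁻¹ * ga g (off + i + 1) := by
  rw [uu_even, tauN, dif_pos ⟨by omega, hi⟩, tw_inv_ga (by omega)]
  simp [αN, βN]

theorem uue_gb' {g off i : ℕ} (hi : off + i + 1 < g) :
    (uu g off (2 * i + 2))⁻¹ (gb g (off + i + 1)) = gb g (off + i + 1) := by
  rw [uu_even, tauN, dif_pos ⟨by omega, hi⟩, tw_inv_gb (by omega)]
  simp [αN, βN]

theorem uue_ga_ne {g off i l : ℕ} (hi : off + i + 1 < g) (hl : l < g) (h : l ≠ off + i)
    (h' : l ≠ off + i + 1) : (uu g off (2 * i + 2))⁻¹ (ga g l) = ga g l := by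
  rw [uu_even, tauN, dif_pos ⟨by omega, hi⟩, tw_inv_ga (by omega), if_neg, if_neg]
  · simp
  · simp only [βN, decide_eq_true_eq]; omega
  · simp only [αN, decide_eq_true_eq]; omega

theorem uue_gb_ne {g off i l : ℕ} (hi : off + i + 1 < g) (hl : l < g) (h : l ≠ off + i)
    (h' : l ≠ off + i + 1) : (uu g off (2 * i + 2))⁻¹ (gb g l) = gb g l := by
  rw [uu_even, tauN, dif_pos ⟨by omega, hi⟩, tw_inv_gb (by omega), if_neg, if_neg]
  · simp
  · simp only [βN, decide_eq_true_eq]; omega
  · simp only [αN, decide_eq_true_eq]; omega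

/-! ### the action of the chain on the coordinates -/

theorem Xw_fix_down {g off k : ℕ} {f : MulAut (FG g)} {i : ℕ} (hi : i ≤ k)
    (hX : f (Xw g off k i) = Xw g off k i)
    (h : ∀ l < i, f (ga g (off + l) * gb g (off + l)) = ga g (off + l) * gb g (off + l)) :
    ∀ d ≤ i, f (Xw g off k (i - d)) = Xw g off k (i - d) := by
  intro d
  induction d with
  | zero => intro _; exact hX
  | succ d ih =>
    intro hd
    have e : i - d = (i - (d + 1)) + 1 := by omega
    have ih' := ih (by omega)
    rw [e] at ih'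
    rw [Xw_succ g off (by omega : i - (d + 1) < k), map_mul, h _ (by omega), ih']

theorem Xw_fix_down' {g off k : ℕ} {f : MulAut (FG g)} {i l : ℕ} (hi : i ≤ k) (hl : l ≤ i)
    (hX : f (Xw g off k i) = Xw g off k i)
    (h : ∀ l < i, f (ga g (off + l) * gb g (off + l)) = ga g (off + l) * gb g (off + l)) :
    f (Xw g off k l) = Xw g off k l := by
  have := Xw_fix_down hi hX h (i - l) (by omega)
  have e : i - (i - l) = l := by omega
  rwa [e] at this

theorem Xw_fix_of {g off k : ℕ} {f : MulAut (FG g)} {l : ℕ} (hl : l ≤ k)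
    (h : ∀ l' < k, l ≤ l' → f (ga g (off + l')) = ga g (off + l') ∧ f (gb g (off + l')) = gb g (off + l')) :
    f (Xw g off k l) = Xw g off k l := by
  have key : ∀ d ≤ k - l, f (Xw g off k (k - d)) = Xw g off k (k - d) := by
    intro d
    induction d with
    | zero => intro _; rw [Nat.sub_zero, Xw_self, map_one]
    | succ d ih =>
      intro hd
      have e : k - d = (k - (d + 1)) + 1 := by omega
      have ih' := ih (by omega)
      rw [e] at ih'
      have h1 := h (k - (d + 1)) (by omega) (by omega)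
      rw [Xw_succ g off (by omega : k - (d + 1) < k), map_mul, map_mul, h1.1, h1.2, ih']
  have := key (k - l) le_rfl
  have e : k - (k - l) = l := by omega
  rwa [e] at this

theorem sc_braidLike {g off k : ℕ} (h : off + k ≤ g) :
    IsBraidLike k (sc g off k) (fun j => (uu g off j)⁻¹) := by
  -- case analysis of the index of the twist
  have hcase : ∀ j, j < 2 * k → (uu g off j)⁻¹ (sc g off k j) = sc g off k (j + 1) ∧
      (uu g off j)⁻¹ (sc g off k (j + 1)) = sc g off k (j + 1) * (sc g off k j)⁻¹ * sc g off k (j + 1) ∧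
      ∀ m, m ≤ 2 * k → m ≠ j → m ≠ j + 1 → (uu g off j)⁻¹ (sc g off k m) = sc g off k m := by
    intro j hj
    rcases Nat.eq_zero_or_pos j with rfl | hjpos
    · -- the twist `τ_{b_0}`
      have hb : off < g := by omega
      set f := (uu g off 0)⁻¹ with hf
      have fa : f (ga g (off + 0)) = ga g (off + 0) * (gb g (off + 0))⁻¹ := by
        rw [hf, uu_zero, add_zero]; exact tauB_inv_ga_self' hb
      have fb : f (gb g (off + 0)) = gb g (off + 0) := by
        rw [hf, uu_zero, add_zero]; exact tauB_inv_gb' hb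
      have fa' : ∀ l, l < k → 1 ≤ l → f (ga g (off + l)) = ga g (off + l) := by
        intro l hl h1
        rw [hf, uu_zero]; exact tauB_inv_ga_ne' (by omega) (by omega)
      have fb' : ∀ l, l < k → 1 ≤ l → f (gb g (off + l)) = gb g (off + l) := by
        intro l hl h1
        rw [hf, uu_zero]; exact tauB_inv_gb' (by omega)
      have fX : ∀ l, l ≤ k → 1 ≤ l → f (Xw g off k l) = Xw g off k l := by
        intro l hl h1
        exact Xw_fix_of hl fun l' hl' hll => ⟨fa' l' hl' (by omega), fb' l' hl' (by omega)⟩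
      have e0 : sc g off k 0 = (ga g (off + 0) * gb g (off + 0) * Xw g off k (0 + 1))⁻¹ := by
        rw [sc_zero, Xw_succ g off (by omega : 0 < k)]
      have e1 : sc g off k (0 + 1) = (ga g (off + 0) * Xw g off k (0 + 1))⁻¹ := sc_odd g off k 0
      refine ⟨?_, ?_, ?_⟩
      · rw [e0, e1, map_inv, map_mul, map_mul, fa, fb, fX 1 (by omega) le_rfl]
        simp [mul_assoc]
      · rw [e0, e1, map_inv, map_mul, fa, fX 1 (by omega) le_rfl]
        simp [mul_assoc]
      · intro m hm h0 h1
        rcases Nat.even_or_odd' m with ⟨c, hc | hc⟩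
        · obtain ⟨d, rfl⟩ : ∃ d, c = d + 1 := ⟨c - 1, by omega⟩
          have e : m = 2 * d + 2 := by omega
          subst e
          rw [sc_even, map_mul, map_inv, fX _ (by omega) (by omega)]
          rcases Nat.eq_zero_or_pos d with rfl | hd
          · rw [fb]
          · rw [fb' d (by omega) hd]
        · subst hc
          rw [sc_odd, map_inv, map_mul, fX _ (by omega) (by omega), fa' c (by omega) (by omega)]
    · rcases Nat.even_or_odd' j with ⟨c, hc | hc⟩
      · -- `τ_{ν_{i,i+1}}`
        obtain ⟨i, rfl⟩ : ∃ d, c = d + 1 := ⟨c - 1, by omega⟩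
        have e : j = 2 * i + 2 := by omega
        subst e
        have hi1 : i + 1 < k := by omega
        have hib : off + i + 1 < g := by omega
        set f := (uu g off (2 * i + 2))⁻¹ with hf
        set ν := nu g (off + i) (off + i + 1) with hν
        have hνe : ν = (gb g (off + i))⁻¹ * ga g (off + i + 1) * gb g (off + i + 1) * (ga g (off + i + 1))⁻¹ :=
          nu_succ g (off + i)
        have fa : f (ga g (off + i)) = ga g (off + i) * ν := uue_ga hib
        have fb : f (gb g (off + i)) = ν⁻¹ * gb g (off + i) * ν := uue_gb hib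
        have fa1 : f (ga g (off + (i + 1))) = ν⁻¹ * ga g (off + (i + 1)) := uue_ga' hib
        have fb1 : f (gb g (off + (i + 1))) = gb g (off + (i + 1)) := uue_gb' hib
        have fa' : ∀ l, l < k → l ≠ i → l ≠ i + 1 → f (ga g (off + l)) = ga g (off + l) := by
          intro l hl h1 h2
          exact uue_ga_ne hib (by omega) (by omega) (by omega)
        have fb' : ∀ l, l < k → l ≠ i → l ≠ i + 1 → f (gb g (off + l)) = gb g (off + l) := by
          intro l hl h1 h2
          exact uue_gb_ne hib (by omega) (by omega) (by omega)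
        have fX2 : ∀ l, l ≤ k → i + 2 ≤ l → f (Xw g off k l) = Xw g off k l := by
          intro l hl h1
          exact Xw_fix_of hl fun l' hl' hll => ⟨fa' l' hl' (by omega) (by omega), fb' l' hl' (by omega) (by omega)⟩
        have fX1 : f (Xw g off k (i + 1)) = ν⁻¹ * Xw g off k (i + 1) := by
          rw [Xw_succ g off hi1, map_mul, map_mul, fa1, fb1, fX2 _ (by omega) (by omega)]
          simp [mul_assoc]
        have fXi : f (Xw g off k i) = Xw g off k i := by
          rw [Xw_succ g off (by omega : i < k), map_mul, map_mul, fa, fb, fX1]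
          simp [mul_assoc]
        have fX : ∀ l, l ≤ i → f (Xw g off k l) = Xw g off k l := by
          intro l hl
          refine Xw_fix_down' (by omega : i ≤ k) hl fXi fun l' hl' => ?_
          rw [map_mul, fa' l' (by omega) (by omega) (by omega), fb' l' (by omega) (by omega) (by omega)]
        have eo : ga g (off + i + 1) = ga g (off + (i + 1)) := rfl
        have eo' : gb g (off + i + 1) = gb g (off + (i + 1)) := rfl
        rw [eo, eo'] at hνe
        refine ⟨?_, ?_, ?_⟩
        · have e2 : sc g off k (2 * i + 2 + 1) = (ga g (off + (i + 1)) * Xw g off k (i + 1 + 1))⁻¹ :=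
            sc_odd g off k (i + 1)
          rw [e2, sc_even, map_mul, map_inv, fX1, fb, Xw_succ g off hi1, hνe]
          simp [mul_assoc]
        · have e2 : sc g off k (2 * i + 2 + 1) = (ga g (off + (i + 1)) * Xw g off k (i + 1 + 1))⁻¹ :=
            sc_odd g off k (i + 1)
          rw [e2, sc_even, map_inv, map_mul, fa1, fX2 _ (by omega) (by omega), Xw_succ g off hi1, hνe]
          simp [mul_assoc]
        · intro m hm h0 h1
          rcases Nat.eq_zero_or_pos m with rfl | hmpos
          · rw [sc_zero, map_inv, fX 0 (by omega)]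
          rcases Nat.even_or_odd' m with ⟨c, hc | hc⟩
          · obtain ⟨d, rfl⟩ : ∃ d, c = d + 1 := ⟨c - 1, by omega⟩
            have e : m = 2 * d + 2 := by omega
            subst e
            have hdi : d ≠ i := by omega
            rw [sc_even, map_mul, map_inv]
            rcases Nat.lt_or_ge d i with hdl | hdl
            · rw [fX (d + 1) (by omega), fb' d (by omega) (by omega) (by omega)]
            · rw [fX2 (d + 1) (by omega) (by omega)]
              by_cases hd1 : d = i + 1
              · subst hd1; rw [fb1]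
              · rw [fb' d (by omega) (by omega) (by omega)]
          · subst hc
            have hdi : c ≠ i + 1 := by omega
            rw [sc_odd, map_inv, map_mul]
            by_cases hci : c = i
            · subst hci
              rw [fa, fX1]; simp [mul_assoc]
            · rw [fa' c (by omega) hci hdi]
              rcases Nat.lt_or_ge c i with hdl | hdl
              · rw [fX (c + 1) (by omega)]
              · rw [fX2 (c + 1) (by omega) (by omega)]
      · -- `τ_{b_i} τ_{a_i} τ_{b_i}⁻¹`
        obtain ⟨i, rfl⟩ : ∃ i, j = 2 * i + 1 := ⟨c, hc⟩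
        have hi1 : i < k := by omega
        have hib : off + i < g := by omega
        set f := (uu g off (2 * i + 1))⁻¹ with hf
        have fa : f (ga g (off + i)) = (gb g (off + i))⁻¹ := uuo_ga hib
        have fb : f (gb g (off + i)) = gb g (off + i) * ga g (off + i) * gb g (off + i) := uuo_gb hib
        have fa' : ∀ l, l < k → l ≠ i → f (ga g (off + l)) = ga g (off + l) := by
          intro l hl h1
          exact uuo_ga_ne (by omega) (by omega)
        have fb' : ∀ l, l < k → l ≠ i → f (gb g (off + l)) = gb g (off + l) := by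
          intro l hl h1
          exact uuo_gb_ne (by omega) (by omega)
        have fX1 : ∀ l, l ≤ k → i + 1 ≤ l → f (Xw g off k l) = Xw g off k l := by
          intro l hl h1
          exact Xw_fix_of hl fun l' hl' hll => ⟨fa' l' hl' (by omega), fb' l' hl' (by omega)⟩
        have fXi : f (Xw g off k i) = Xw g off k i := by
          rw [Xw_succ g off (by omega : i < k), map_mul, map_mul, fa, fb, fX1 _ (by omega) le_rfl]
          simp [mul_assoc]
        have fX : ∀ l, l ≤ k → f (Xw g off k l) = Xw g off k l := by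
          intro l hl
          rcases Nat.lt_or_ge i l with hil | hil
          · exact fX1 l hl hil
          · refine Xw_fix_down' (by omega : i ≤ k) hil fXi fun l' hl' => ?_
            rw [map_mul, fa' l' (by omega) (by omega), fb' l' (by omega) (by omega)]
        refine ⟨?_, ?_, ?_⟩
        · have e2 : sc g off k (2 * i + 1 + 1) = (Xw g off k (i + 1))⁻¹ * gb g (off + i) := sc_even g off k i
          rw [e2, sc_odd, map_inv, map_mul, fa, fX _ (by omega)]
          simp [mul_assoc]
        · have e2 : sc g off k (2 * i + 1 + 1) = (Xw g off k (i + 1))⁻¹ * gb g (off + i) := sc_even g off k i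
          rw [e2, sc_odd, map_mul, map_inv, fb, fX _ (by omega)]
          simp [mul_assoc]
        · intro m hm h0 h1
          rcases Nat.eq_zero_or_pos m with rfl | hmpos
          · rw [sc_zero, map_inv, fX 0 (by omega)]
          rcases Nat.even_or_odd' m with ⟨c, hc | hc⟩
          · obtain ⟨d, rfl⟩ : ∃ d, c = d + 1 := ⟨c - 1, by omega⟩
            have e : m = 2 * d + 2 := by omega
            subst e
            rw [sc_even, map_mul, map_inv, fX _ (by omega), fb' d (by omega) (by omega)]
          · subst hc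
            rw [sc_odd, map_inv, map_mul, fX _ (by omega), fa' c (by omega) (by omega)]
  exact ⟨fun j hj => (hcase j hj).1, fun j hj => (hcase j hj).2.1, fun j hj => (hcase j hj).2.2⟩

/-! ### the chain acts only on its handles -/

theorem uu_other {g off k j l : ℕ} (h : off + k ≤ g) (hj : j < 2 * k) (hl : l < off ∨ off + k ≤ l) :
    uu g off j (ga g l) = ga g l ∧ uu g off j (gb g l) = gb g l := by
  by_cases hlg : l < g
  swap
  · rw [ga_of_ge hlg, gb_of_ge hlg, map_one]; exact ⟨rfl, rfl⟩
  have hinv : (uu g off j)⁻¹ (ga g l) = ga g l ∧ (uu g off j)⁻¹ (gb g l) = gb g l := by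
    rcases Nat.eq_zero_or_pos j with rfl | hjpos
    · rw [uu_zero]
      exact ⟨tauB_inv_ga_ne' hlg (by omega), tauB_inv_gb' hlg⟩
    · rcases Nat.even_or_odd' j with ⟨c, hc | hc⟩
      · obtain ⟨i, rfl⟩ : ∃ d, c = d + 1 := ⟨c - 1, by omega⟩
        have e : j = 2 * i + 2 := by omega
        subst e
        exact ⟨uue_ga_ne (by omega) hlg (by omega) (by omega), uue_gb_ne (by omega) hlg (by omega) (by omega)⟩
      · subst hc
        exact ⟨uuo_ga_ne hlg (by omega), uuo_gb_ne hlg (by omega)⟩
  constructor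
  · have h1 := congrArg (uu g off j) hinv.1
    rw [MulAut.apply_inv_self] at h1
    exact h1.symm
  · have h1 := congrArg (uu g off j) hinv.2
    rw [MulAut.apply_inv_self] at h1
    exact h1.symm

/-! ### the chain relation -/

theorem delta_inv_ga {g k l : ℕ} (h : k ≤ g) (hl : l < g) : (delta g k)⁻¹ (ga g l) =
    if l < k then (zr g 0 k)⁻¹ * ga g l * zr g 0 k else ga g l := by
  rw [delta, dif_pos h, tw_inv_ga hl]
  by_cases h' : l < k <;> simp [αD, h']

theorem delta_inv_gb {g k l : ℕ} (h : k ≤ g) (hl : l < g) : (delta g k)⁻¹ (gb g l) =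
    if l < k then (zr g 0 k)⁻¹ * gb g l * zr g 0 k else gb g l := by
  rw [delta, dif_pos h, tw_inv_gb hl]
  by_cases h' : l < k <;> simp [αD, h']

/-- the chain relation `δ_k = (u_{2k-1} ⋯ u_0)^{4k+2}` -/
theorem delta_chain {g k : ℕ} (hk : 1 ≤ k) (h : k ≤ g) :
    delta g k = ((((List.range (2 * k)).map fun j => (uu g 0 j)⁻¹).prod) ^ (4 * k + 2))⁻¹ := by
  set E := (((List.range (2 * k)).map fun j => (uu g 0 j)⁻¹).prod) ^ (4 * k + 2) with hE
  have h0 : 0 + k ≤ g := by omega
  have hch := Pool.Agent.helper78.Hz.chain_abstract k hk (sc g 0 k) (fun j => (uu g 0 j)⁻¹)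
    (sc_braidLike h0)
  rw [sc_altP h0, sc_altQ h0, zero_add] at hch
  -- `E` is conjugation by `z⁻¹` on the subgroup generated by the coordinates
  have hconj : ∀ x ∈ Subgroup.closure {x | ∃ m ≤ 2 * k, x = sc g 0 k m},
      E x = (zr g 0 k)⁻¹ * x * zr g 0 k := by
    intro x hx
    induction hx using Subgroup.closure_induction with
    | mem x hx =>
      obtain ⟨m, hm, rfl⟩ := hx
      rw [hE, hch m hm]
      simp [mul_assoc]
    | one => simp
    | mul x y _ _ hx hy => rw [map_mul, hx, hy]; group
    | inv x _ hx => rw [map_inv, hx]; group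
  -- `E` fixes the other handles
  have hother : ∀ x, (∀ j < 2 * k, uu g 0 j x = x) → E x = x := by
    intro x hx
    have h1 : ∀ n ≤ 2 * k, (((List.range n).map fun j => (uu g 0 j)⁻¹).prod) x = x := by
      intro n
      induction n with
      | zero => intro _; simp
      | succ n ih =>
        intro hn
        rw [List.range_succ, List.map_append, List.prod_append, MulAut.mul_apply]
        have h2 : (uu g 0 n)⁻¹ x = x := by
          have h3 := congrArg (fun y => ((uu g 0 n)⁻¹ : MulAut (FG g)) y) (hx n (by omega))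
          rw [MulAut.inv_apply_self] at h3
          exact h3.symm
        simp only [List.map_cons, List.map_nil, List.prod_cons, List.prod_nil, mul_one]
        rw [h2, ih (by omega)]
    have h2 := h1 (2 * k) le_rfl
    have h3 : ∀ n : ℕ, ((((List.range (2 * k)).map fun j => (uu g 0 j)⁻¹).prod) ^ n) x = x := by
      intro n
      induction n with
      | zero => simp
      | succ n ih => rw [pow_succ, MulAut.mul_apply, h2, ih]
    exact h3 _
  have key : (delta g k)⁻¹ = E := by
    refine fg_aut_ext (fun l hl => ?_) (fun l hl => ?_)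
    · rw [delta_inv_ga h hl]
      split_ifs with hlk
      · have h1 := (sc_gen h0 hlk).1
        rw [zero_add] at h1
        exact (hconj _ h1).symm
      · exact (hother _ fun j hj => (uu_other h0 hj (Or.inr (by omega))).1).symm
    · rw [delta_inv_gb h hl]
      split_ifs with hlk
      · have h1 := (sc_gen h0 hlk).2
        rw [zero_add] at h1
        exact (hconj _ h1).symm
      · exact (hother _ fun j hj => (uu_other h0 hj (Or.inr (by omega))).2).symm
  rw [← key, inv_inv]

end Pool.Agent.helper18.Hz
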