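import Pool.Agent.helper18.Hz.Comm
import Pool.Agent.helper35.Hz.Supp

/-! # MODULE C2, last part: `Tj_braid` -/

namespace Pool.Agent.helper18.Hz
open Pool.Agent.helper35.Hz

section abs
variable {G : Type*} [Group G]

theorem braid_conj {x y : G} (h : Braid x y) (c : G) : Braid (c * x * c⁻¹) (c * y * c⁻¹) := by
  unfold Braid at *
  have h1 : c * (x * y * x) * c⁻¹ = c * (y * x * y) * c⁻¹ := by rw [h]
  simpa [mul_assoc] using h1

/-- if `a` commutes with `c` and braids with `u` then `a` braids with `c u c⁻¹` -/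
theorem braid_conj_right {a u c : G} (h : Braid a u) (hc : Commute a c) : Braid a (c * u * c⁻¹) := by
  have h1 := braid_conj h c
  have h2 : c * a * c⁻¹ = a := by rw [← hc.eq]; simp
  rwa [h2] at h1

theorem braid_inv_conj {u T : G} (h : Braid u T) : u⁻¹ * T * u = T * u * T⁻¹ := by
  unfold Braid at h
  have h1 : u⁻¹ * (u * T * u) * T⁻¹ = u⁻¹ * (T * u * T) * T⁻¹ := by rw [h]
  have h2 : u⁻¹ * (T * u * T) * T⁻¹ = u⁻¹ * T * u := by group
  have h3 : u⁻¹ * (u * T * u) * T⁻¹ = T * u * T⁻¹ := by group
  rw [h2, h3] at h1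
  exact h1.symm

theorem braid_L1 {a u v T : G} (h1 : Commute a T) (h2 : Commute a v) (h3 : Braid a u) (h4 : Braid u T) :
    Braid a ((u * v)⁻¹ * T * (u * v)) := by
  have e : (u * v)⁻¹ * T * (u * v) = (v⁻¹ * T) * u * (v⁻¹ * T)⁻¹ := by
    have := braid_inv_conj h4
    calc (u * v)⁻¹ * T * (u * v) = v⁻¹ * (u⁻¹ * T * u) * v := by group
      _ = v⁻¹ * (T * u * T⁻¹) * v := by rw [this]
      _ = _ := by group
  rw [e]
  exact braid_conj_right h3 (h2.inv_right.mul_right h1)

end abs

section
variable {g : ℕ}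

theorem uu_Supp' {off j : ℕ} : uu g off j ∈ Supp g (fun l => off + (j - 1) / 2 ≤ l ∧ l ≤ off + j / 2) := by
  rcases Nat.eq_zero_or_pos j with rfl | hj
  · rw [uu_zero]; exact tauB_Supp (by simp)
  · rcases Nat.even_or_odd' j with ⟨c, hc | hc⟩
    · obtain ⟨i, rfl⟩ : ∃ d, c = d + 1 := ⟨c - 1, by omega⟩
      have e : j = 2 * i + 2 := by omega
      subst e
      rw [uu_even]
      exact tauN_Supp fun l h1 h2 => ⟨by omega, by omega⟩
    · subst hc
      rw [uu_odd]
      have hP : off + (2 * c + 1 - 1) / 2 ≤ off + c ∧ off + c ≤ off + (2 * c + 1) / 2 := by omega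
      exact mul_mem (mul_mem (tauB_Supp hP) (tauA_Supp hP)) (inv_mem (tauB_Supp hP))

/-- distant elements of the chain commute -/
theorem uu_comm_far {off k m n : ℕ} (h : off + k ≤ g) (hmn : m + 2 ≤ n) (hn : n < 2 * k) :
    Commute (uu g off m) (uu g off n) := by
  by_cases hc : m / 2 < (n - 1) / 2
  · exact Supp.comm (fun l hl => by omega) uu_Supp' uu_Supp'
  · -- `m = 2 i`, `n = 2 i + 2`
    rcases Nat.even_or_odd' m with ⟨c, hm | hm⟩
    · have hn2 : n = 2 * c + 2 := by omega
      rcases Nat.eq_zero_or_pos c with rfl | hcpos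
      · have e : m = 0 := by omega
        subst e
        have e' : n = 2 * 0 + 2 := by omega
        subst e'
        rw [uu_zero, uu_even]
        exact comm_B_N1 (by omega) (by omega)
      · obtain ⟨d, rfl⟩ : ∃ d, c = d + 1 := ⟨c - 1, by omega⟩
        have e : m = 2 * d + 2 := by omega
        subst e
        subst hn2
        rw [uu_even, uu_even]
        have e2 : off + (d + 1) = off + d + 1 := rfl
        rw [e2]
        exact comm_N_N1 (by omega) (by omega) (by omega)
    · exfalso; omega

/-- consecutive elements of the chain braid -/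
theorem uu_braid_succ {off k m : ℕ} (h : off + k ≤ g) (hm : m + 1 < 2 * k) :
    Braid (uu g off m) (uu g off (m + 1)) := by
  rcases Nat.eq_zero_or_pos m with rfl | hmpos
  · have e' : 0 + 1 = 2 * 0 + 1 := rfl
    rw [e', uu_zero, uu_odd]
    exact braid_conj_right (braid_symm (braid_A_B (by omega))) (Commute.refl _)
  · rcases Nat.even_or_odd' m with ⟨c, hc | hc⟩
    · obtain ⟨i, rfl⟩ : ∃ d, c = d + 1 := ⟨c - 1, by omega⟩
      have e : m = 2 * i + 2 := by omega
      subst e
      have e' : 2 * i + 2 + 1 = 2 * (i + 1) + 1 := by ring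
      rw [e', uu_even, uu_odd]
      have e2 : off + (i + 1) = off + i + 1 := rfl
      rw [e2]
      exact braid_conj_right (braid_symm (braid_A_N2 (by omega) (by omega)))
        (comm_B_N2 (by omega) (by omega)).symm
    · subst hc
      have e' : 2 * c + 1 + 1 = 2 * c + 2 := by ring
      rw [e', uu_even, uu_odd]
      exact braid_symm (braid_conj_right (braid_symm (braid_A_N1 (by omega) (by omega)))
        (comm_B_N1 (by omega) (by omega)).symm)

end

theorem Tj_top (k : ℕ) : Tj k (2 * k) = tauN (2 * k) (k - 1) (2 * k - 1) := by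
  rw [Tj, Nat.sub_self]; rfl

theorem Tj_step {k j : ℕ} (hj : j < 2 * k) : Tj k j = (UU k j)⁻¹ * Tj k (j + 1) * UU k j := by
  have e : 2 * k - j = (2 * k - (j + 1)) + 1 := by omega
  have e2 : 2 * k - 1 - (2 * k - (j + 1)) = j := by omega
  rw [Tj, e, TT, e2]
  rfl

theorem UU_eq {k j : ℕ} : UU k j = uu (2 * k) 0 j * uu (2 * k) k j := rfl

theorem UU_eq' {k j : ℕ} (hj : j < 2 * k) : UU k j = uu (2 * k) k j * uu (2 * k) 0 j :=
  (uu_comm_uu hj hj).eq

/-- the commutation and braid relations of `T_j` with the chains -/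
theorem Tj_chain {k : ℕ} (hk : 1 ≤ k) (d : ℕ) (hd : d ≤ 2 * k) :
    (∀ m, m + 1 < 2 * k - d → Commute (uu (2 * k) 0 m) (Tj k (2 * k - d)) ∧
      Commute (uu (2 * k) k m) (Tj k (2 * k - d))) ∧
    (1 ≤ 2 * k - d → Braid (uu (2 * k) 0 (2 * k - d - 1)) (Tj k (2 * k - d)) ∧
      Braid (uu (2 * k) k (2 * k - d - 1)) (Tj k (2 * k - d))) := by
  induction d with
  | zero =>
    rw [Nat.sub_zero, Tj_top]
    have hlt : k - 1 < 2 * k - 1 := by omega
    have hlt2 : 2 * k - 1 < 2 * k := by omega
    refine ⟨fun m hm => ⟨?_, ?_⟩, fun _ => ⟨?_, ?_⟩⟩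
    · by_cases hm2 : m + 2 = 2 * k
      · rcases Nat.lt_or_ge k 2 with hk2 | hk2
        · have hk1 : k = 1 := by omega
          subst hk1
          have e : m = 0 := by omega
          subst e
          rw [uu_zero]
          exact comm_B_N1 (by omega) (by omega)
        · have e : m = 2 * (k - 2) + 2 := by omega
          rw [e, uu_even]
          have e2 : 0 + (k - 2) + 1 = k - 1 := by omega
          rw [e2]
          exact comm_N_N1 (by omega) hlt hlt2
      · exact Supp.comm (P' := fun l => k - 1 ≤ l) (fun l hl => by omega) uu_Supp'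
          (tauN_Supp fun l h1 _ => h1)
    · -- the second chain, inside
      rcases Nat.eq_zero_or_pos m with rfl | hmpos
      · rw [uu_zero]
        rcases Nat.lt_or_ge k 2 with hk2 | hk2
        · have hk1 : k = 1 := by omega
          subst hk1
          exact comm_B_N2 (by omega) (by omega)
        · exact comm_B_N hlt hlt2 (by omega) (by omega) (by omega)
      · rcases Nat.even_or_odd' m with ⟨c, hc | hc⟩
        · obtain ⟨i, rfl⟩ : ∃ d, c = d + 1 := ⟨c - 1, by omega⟩
          have e : m = 2 * i + 2 := by omega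
          subst e
          rw [uu_even]
          by_cases hi : i + 2 = k
          · have e2 : k + i + 1 = 2 * k - 1 := by omega
            rw [e2]
            exact comm_N_N2 (by omega) (by omega) hlt2
          · exact comm_N_N3 hlt hlt2 (by omega) (by omega) (by omega) (by omega) (by omega)
        · subst hc
          rw [uu_odd]
          have hB := comm_B_N (l := k + c) hlt hlt2 (by omega) (by omega) (by omega)
          have hA := comm_A_N (l := k + c) hlt hlt2 (by omega) (by omega) (by omega)
          exact (hB.mul_left hA).mul_left hB.inv_left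
    · have e : 2 * k - 1 = 2 * (k - 1) + 1 := by omega
      have e2 : 0 + (k - 1) = k - 1 := by omega
      conv => arg 1; rw [e, uu_odd, e2]
      exact braid_symm (braid_conj_right (braid_symm (braid_A_N1 hlt hlt2)) (comm_B_N1 hlt hlt2).symm)
    · have e : 2 * k - 1 = 2 * (k - 1) + 1 := by omega
      have e2 : k + (k - 1) = 2 * k - 1 := by omega
      conv => arg 1; rw [e, uu_odd, e2]
      exact braid_symm (braid_conj_right (braid_symm (braid_A_N2 hlt hlt2)) (comm_B_N2 hlt hlt2).symm)
  | succ d ih =>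
    obtain ⟨ih1, ih2⟩ := ih (by omega)
    set j := 2 * k - (d + 1) with hj
    have e : 2 * k - d = j + 1 := by omega
    rw [e] at ih1 ih2
    have hjk : j < 2 * k := by omega
    have hT := Tj_step hjk
    have ih2' := ih2 (by omega)
    simp only [Nat.add_sub_cancel] at ih2'
    refine ⟨fun m hm => ?_, fun hj1 => ?_⟩
    · obtain ⟨c1, c2⟩ := ih1 m (by omega)
      have d1 : Commute (uu (2 * k) 0 m) (uu (2 * k) 0 j) :=
        uu_comm_far (k := k) (by omega) (by omega) (by omega)
      have d2 : Commute (uu (2 * k) 0 m) (uu (2 * k) k j) := uu_comm_uu (by omega) (by omega)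
      have d3 : Commute (uu (2 * k) k m) (uu (2 * k) k j) :=
        uu_comm_far (k := k) (by omega) (by omega) (by omega)
      have d4 : Commute (uu (2 * k) k m) (uu (2 * k) 0 j) := (uu_comm_uu (by omega) (by omega)).symm
      rw [hT, UU_eq]
      have e1 : Commute (uu (2 * k) 0 m) (uu (2 * k) 0 j * uu (2 * k) k j) := d1.mul_right d2
      have e2 : Commute (uu (2 * k) k m) (uu (2 * k) 0 j * uu (2 * k) k j) := d4.mul_right d3
      exact ⟨(e1.inv_right.mul_right c1).mul_right e1, (e2.inv_right.mul_right c2).mul_right e2⟩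
    · obtain ⟨c1, c2⟩ := ih1 (j - 1) (by omega)
      have ej : j - 1 + 1 = j := by omega
      have b1 := uu_braid_succ (g := 2 * k) (off := 0) (k := k) (m := j - 1) (by omega) (by omega)
      have b2 := uu_braid_succ (g := 2 * k) (off := k) (k := k) (m := j - 1) (by omega) (by omega)
      rw [ej] at b1 b2
      constructor
      · rw [hT, UU_eq]
        exact braid_L1 c1 (uu_comm_uu (by omega) (by omega)) b1 ih2'.1
      · rw [hT, UU_eq' hjk]
        exact braid_L1 c2 (uu_comm_uu (by omega) (by omega)).symm b2 ih2'.2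

/-- `τ_{a_i}` and `τ_{a_{k+i}}` commute with `T_j` for `j ≥ 2 i + 3` -/
theorem Tj_commA {k i : ℕ} (hi : i + 1 < k) (d : ℕ) (hd : 2 * i + 3 ≤ 2 * k - d) (hd' : d ≤ 2 * k) :
    Commute (tauA (2 * k) i) (Tj k (2 * k - d)) ∧ Commute (tauA (2 * k) (k + i)) (Tj k (2 * k - d)) := by
  induction d with
  | zero =>
    rw [Nat.sub_zero, Tj_top]
    exact ⟨comm_A_N (by omega) (by omega) (by omega) (by omega) (by omega),
      comm_A_N (by omega) (by omega) (by omega) (by omega) (by omega)⟩
  | succ d ih =>
    obtain ⟨c1, c2⟩ := ih (by omega) (by omega)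
    set j := 2 * k - (d + 1) with hj
    have e : 2 * k - d = j + 1 := by omega
    rw [e] at c1 c2
    have hjk : j < 2 * k := by omega
    rw [Tj_step hjk, UU_eq]
    have s1 : Commute (tauA (2 * k) i) (uu (2 * k) 0 j) :=
      Supp.comm (P := fun l => l = i) (fun l hl => by omega) (tauA_Supp rfl) uu_Supp'
    have s2 : Commute (tauA (2 * k) i) (uu (2 * k) k j) :=
      Supp.comm (P := fun l => l = i) (fun l hl => by omega) (tauA_Supp rfl) uu_Supp'
    have s3 : Commute (tauA (2 * k) (k + i)) (uu (2 * k) 0 j) :=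
      Supp.comm (P := fun l => l = k + i) (fun l hl => by omega) (tauA_Supp rfl) uu_Supp'
    have s4 : Commute (tauA (2 * k) (k + i)) (uu (2 * k) k j) :=
      Supp.comm (P := fun l => l = k + i) (fun l hl => by omega) (tauA_Supp rfl) uu_Supp'
    have e1 := s1.mul_right s2
    have e2 := s3.mul_right s4
    exact ⟨(e1.inv_right.mul_right c1).mul_right e1, (e2.inv_right.mul_right c2).mul_right e2⟩

/-- `T_{2i+2}` braids with `τ_{a_i}` and `τ_{a_{k+i}}`. -/
theorem Tj_braid {k i : ℕ} (hi : i < k) :
    Braid (Tj k (2 * i + 2)) (tauA (2 * k) i) ∧ Braid (Tj k (2 * i + 2)) (tauA (2 * k) (k + i)) := by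
  by_cases hik : i + 1 = k
  · have e : 2 * i + 2 = 2 * k := by omega
    have e1 : k - 1 = i := by omega
    have e2 : 2 * k - 1 = k + i := by omega
    rw [e, Tj_top, e1, e2]
    exact ⟨braid_symm (braid_A_N1 (by omega) (by omega)), braid_symm (braid_A_N2 (by omega) (by omega))⟩
  · have hj : 2 * i + 2 < 2 * k := by omega
    have hch := (Tj_chain (k := k) (by omega) (2 * k - (2 * i + 3)) (by omega)).2
    have hcA := Tj_commA (k := k) (i := i) (by omega) (2 * k - (2 * i + 3)) (by omega) (by omega)
    have e : 2 * k - (2 * k - (2 * i + 3)) = 2 * i + 2 + 1 := by omega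
    rw [e] at hch hcA
    have hch' := hch (by omega)
    simp only [Nat.add_sub_cancel] at hch'
    constructor
    · rw [Tj_step hj, UU_eq]
      refine braid_symm (braid_L1 hcA.1 ?_ ?_ hch'.1)
      · exact Supp.comm (P := fun l => l = i) (fun l hl => by omega) (tauA_Supp rfl) uu_Supp'
      · rw [uu_even, Nat.zero_add]
        exact braid_A_N1 (by omega) (by omega)
    · rw [Tj_step hj, UU_eq' hj]
      refine braid_symm (braid_L1 hcA.2 ?_ ?_ hch'.2)
      · exact Supp.comm (P := fun l => l = k + i) (fun l hl => by omega) (tauA_Supp rfl) uu_Supp'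
      · rw [uu_even]
        exact braid_A_N1 (by omega) (by omega)

end Pool.Agent.helper18.Hz
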